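import Mathlib

/-!
# Random colourings with independent edges

`prob P A` is the probability of the event `A` for a random function `c : E → Bool` with
independent values, `c e = true` with probability `P e`.
-/

set_option autoImplicit false

open Finset

namespace Pool.Agent.H86.Graphon

/-- The probability that a coin that shows `true` with probability `p` shows `b`. -/
def coin (p : ℝ) (b : Bool) : ℝ := if b then p else 1 - p

open Classical in
/-- The probability of the event `A` for the random function `c : E → Bool` whose values are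
independent, `c e` being `true` with probability `P e`. -/
noncomputable def prob {E : Type*} [Fintype E] [DecidableEq E] (P : E → ℝ)
    (A : Set (E → Bool)) : ℝ :=
  ∑ c : E → Bool, if c ∈ A then ∏ e, coin (P e) (c e) else 0

lemma coin_nonneg {p : ℝ} (h : p ∈ Set.Icc (0 : ℝ) 1) (b : Bool) : 0 ≤ coin p b := by
  unfold coin
  rcases b with _ | _
  · simp [h.2]
  · simp [h.1]

lemma coin_add (p : ℝ) : coin p true + coin p false = 1 := by
  simp [coin]

lemma sum_coin_mul (p : ℝ) (g : Bool → ℝ) :
    ∑ b, coin p b * g b = p * g true + (1 - p) * g false := by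
  simp [coin]

section

variable {E : Type*} [Fintype E] [DecidableEq E]

omit [DecidableEq E] in
lemma prod_coin_nonneg {P : E → ℝ} (hP : ∀ e, P e ∈ Set.Icc (0 : ℝ) 1) (c : E → Bool) :
    0 ≤ ∏ e, coin (P e) (c e) :=
  prod_nonneg fun e _ => coin_nonneg (hP e) _

/-- Expectation of a product. -/
lemma sum_prod_coin (P : E → ℝ) (g : E → Bool → ℝ) :
    ∑ c : E → Bool, (∏ e, coin (P e) (c e)) * ∏ e, g e (c e) =
      ∏ e, (P e * g e true + (1 - P e) * g e false) := by
  have h := Finset.prod_univ_sum (fun _ : E => (univ : Finset Bool))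
    (fun e b => coin (P e) b * g e b)
  rw [Fintype.piFinset_univ] at h
  rw [← Finset.prod_congr rfl fun e _ => sum_coin_mul (P e) (g e), h]
  exact Finset.sum_congr rfl fun c _ => prod_mul_distrib.symm

lemma sum_prod_coin_one (P : E → ℝ) :
    ∑ c : E → Bool, (∏ e, coin (P e) (c e)) = 1 := by
  have := sum_prod_coin P (fun _ _ => 1)
  simpa using this

lemma prob_nonneg {P : E → ℝ} (hP : ∀ e, P e ∈ Set.Icc (0 : ℝ) 1) (A : Set (E → Bool)) :
    0 ≤ prob P A := by
  classical
  unfold prob
  refine sum_nonneg fun c _ => ?_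
  split_ifs
  · exact prod_coin_nonneg hP c
  · exact le_rfl

lemma prob_mono {P : E → ℝ} (hP : ∀ e, P e ∈ Set.Icc (0 : ℝ) 1) {A B : Set (E → Bool)}
    (h : A ⊆ B) : prob P A ≤ prob P B := by
  classical
  unfold prob
  refine sum_le_sum fun c _ => ?_
  by_cases hc : c ∈ A
  · rw [if_pos hc, if_pos (h hc)]
  · rw [if_neg hc]
    split_ifs
    · exact prod_coin_nonneg hP c
    · exact le_rfl

lemma prob_compl (P : E → ℝ) (A : Set (E → Bool)) :
    prob P A + prob P Aᶜ = 1 := by
  classical
  unfold prob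
  rw [← sum_add_distrib, ← sum_prod_coin_one P]
  refine sum_congr rfl fun c _ => ?_
  by_cases hc : c ∈ A
  · simp [hc]
  · simp [hc]

lemma prob_le_one {P : E → ℝ} (hP : ∀ e, P e ∈ Set.Icc (0 : ℝ) 1)
    (A : Set (E → Bool)) : prob P A ≤ 1 := by
  have h1 := prob_compl P A
  have h2 := prob_nonneg hP Aᶜ
  linarith

/-- The conditional distribution, given the values of `c₀` outside `X`. -/
noncomputable def cond {E : Type*} (P : E → ℝ) (X : Set E) (c₀ : E → Bool) : E → ℝ :=
  open Classical in fun e => if e ∈ X then P e else if c₀ e then 1 else 0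

omit [Fintype E] [DecidableEq E] in
lemma cond_mem {P : E → ℝ} (hP : ∀ e, P e ∈ Set.Icc (0 : ℝ) 1) (X : Set E) (c₀ : E → Bool)
    (e : E) : cond P X c₀ e ∈ Set.Icc (0 : ℝ) 1 := by
  classical
  unfold cond
  split_ifs
  · exact hP e
  · simp
  · simp

/-- Total probability: first the values outside `X`, then the values in `X`. -/
lemma prob_eq_sum_cond (P : E → ℝ) (X : Set E) (A : Set (E → Bool)) :
    prob P A = ∑ c₀ : E → Bool, (∏ e, coin (P e) (c₀ e)) * prob (cond P X c₀) A := by
  classical
  unfold prob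
  simp_rw [mul_sum]
  rw [sum_comm]
  refine sum_congr rfl fun c _ => ?_
  by_cases hc : c ∈ A
  · simp only [hc, if_true]
    have h := sum_prod_coin P
      (fun e b => coin (if e ∈ X then P e else if b then 1 else 0) (c e))
    unfold cond
    rw [h]
    refine prod_congr rfl fun e _ => ?_
    by_cases he : e ∈ X
    · simp only [he, if_true]
      ring
    · rcases hce : c e with _ | _
      · simp [he, coin]
      · simp [he, coin]
  · simp [hc]

/-- If the conditional probability of `A` is at most `t` for all values outside `X`, then the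
probability of `A` is at most `t`. -/
lemma prob_le_of_cond {P : E → ℝ} (hP : ∀ e, P e ∈ Set.Icc (0 : ℝ) 1) (X : Set E)
    (A : Set (E → Bool)) {t : ℝ} (h : ∀ c₀ : E → Bool, prob (cond P X c₀) A ≤ t) :
    prob P A ≤ t := by
  rw [prob_eq_sum_cond P X A]
  calc ∑ c₀ : E → Bool, (∏ e, coin (P e) (c₀ e)) * prob (cond P X c₀) A
      ≤ ∑ c₀ : E → Bool, (∏ e, coin (P e) (c₀ e)) * t :=
        sum_le_sum fun c₀ _ => mul_le_mul_of_nonneg_left (h c₀) (prod_coin_nonneg hP c₀)
    _ = t := by rw [← sum_mul, sum_prod_coin_one, one_mul]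

/-- Outside `X` the colouring is `c₀`, almost surely. -/
lemma prob_cond_eq_zero {P : E → ℝ} {X : Set E} {c₀ : E → Bool} {A : Set (E → Bool)}
    (h : ∀ c ∈ A, ∃ e, e ∉ X ∧ c e ≠ c₀ e) : prob (cond P X c₀) A = 0 := by
  classical
  unfold prob
  refine sum_eq_zero fun c _ => ?_
  by_cases hc : c ∈ A
  · rw [if_pos hc]
    obtain ⟨e, he, hce⟩ := h c hc
    refine prod_eq_zero (mem_univ e) ?_
    unfold cond
    rw [if_neg he]
    rcases h1 : c e with _ | _ <;> rcases h2 : c₀ e with _ | _
    · exact absurd (h1.trans h2.symm) hce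
    · simp [coin]
    · simp [coin]
    · exact absurd (h1.trans h2.symm) hce
  · rw [if_neg hc]

/-- **Second moment method.**  If `C i` are sets of edges, the probability that one of them is
monochromatic of the colour `b` is at least `2 - 𝔼 X²`. -/
lemma second_moment {P : E → ℝ} (hP : ∀ e, P e ∈ Set.Icc (0 : ℝ) 1) (b : Bool)
    {ι : Type*} (s : Finset ι) (hs : s.Nonempty) (C : ι → Finset E) {a : ℝ} (ha : 1 ≤ a)
    (hC : ∀ i ∈ s, ∀ e ∈ C i, 1 ≤ a * coin (P e) b) :
    prob P {c | ∀ i ∈ s, ∃ e ∈ C i, c e ≠ b} ≤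
      (∑ i ∈ s, ∑ j ∈ s, a ^ (C i ∩ C j).card) / (s.card : ℝ) ^ 2 - 1 := by
  classical
  -- the normalised indicator of the event that `C i` is monochromatic
  set Y : ι → (E → Bool) → ℝ := fun i c =>
    ∏ e, (if e ∈ C i then (if c e = b then (coin (P e) b)⁻¹ else 0) else 1) with hY
  set μ : (E → Bool) → ℝ := fun c => ∏ e, coin (P e) (c e) with hμ
  have hμ0 : ∀ c, 0 ≤ μ c := fun c => prod_coin_nonneg hP c
  have hμ1 : ∑ c, μ c = 1 := sum_prod_coin_one P
  have hpos : ∀ i ∈ s, ∀ e ∈ C i, 0 < coin (P e) b := by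
    intro i hi e he
    have h1 := hC i hi e he
    by_contra h2
    push Not at h2
    nlinarith
  have hexp : ∀ (p : ℝ) (g : Bool → ℝ), p * g true + (1 - p) * g false =
      coin p b * g b + coin p (!b) * g (!b) := by
    intro p g
    rcases b with _ | _ <;> simp [coin, add_comm]
  have hsumcoin : ∀ p : ℝ, coin p b + coin p (!b) = 1 := by
    intro p
    rcases b with _ | _ <;> simp [coin]
  have hE1 : ∀ i ∈ s, ∑ c, μ c * Y i c = 1 := by
    intro i hi
    have h := sum_prod_coin P
      (fun e x => (if e ∈ C i then (if x = b then (coin (P e) b)⁻¹ else 0) else 1))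
    rw [hμ, hY]
    rw [h]
    refine prod_eq_one fun e _ => ?_
    rw [hexp (P e) (fun x => (if e ∈ C i then (if x = b then (coin (P e) b)⁻¹ else 0) else 1))]
    by_cases he : e ∈ C i
    · simp [he, (hpos i hi e he).ne']
    · simp [he, hsumcoin]
  have hE2 : ∀ i ∈ s, ∀ j ∈ s, ∑ c, μ c * (Y i c * Y j c) ≤ a ^ (C i ∩ C j).card := by
    intro i hi j hj
    have h := sum_prod_coin P
      (fun e x => (if e ∈ C i then (if x = b then (coin (P e) b)⁻¹ else 0) else 1) *
        (if e ∈ C j then (if x = b then (coin (P e) b)⁻¹ else 0) else 1))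
    have h2 : ∑ c, μ c * (Y i c * Y j c) =
        ∏ e, (if e ∈ C i ∩ C j then (coin (P e) b)⁻¹ else 1) := by
      rw [hμ, hY]
      simp only [← prod_mul_distrib]
      simp only [← prod_mul_distrib] at h
      rw [h]
      refine prod_congr rfl fun e _ => ?_
      rw [hexp (P e) (fun x => (if e ∈ C i then (if x = b then (coin (P e) b)⁻¹ else 0) else 1) *
        (if e ∈ C j then (if x = b then (coin (P e) b)⁻¹ else 0) else 1))]
      by_cases he : e ∈ C i <;> by_cases he' : e ∈ C j
      · simp [he, he', (hpos i hi e he).ne']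
      · simp [he, he', (hpos i hi e he).ne']
      · simp [he, he', (hpos j hj e he').ne']
      · simp [he, he', hsumcoin]
    rw [h2, prod_ite_mem_eq]
    calc ∏ e ∈ C i ∩ C j, (coin (P e) b)⁻¹ ≤ ∏ _e ∈ C i ∩ C j, a := by
          refine prod_le_prod (fun e he => ?_) fun e he => ?_
          · exact inv_nonneg.mpr (hpos i hi e (mem_inter.mp he).1).le
          · have h3 := hC i hi e (mem_inter.mp he).1
            have h4 := hpos i hi e (mem_inter.mp he).1
            rw [inv_le_iff_one_le_mul₀ h4]
            exact h3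
      _ = a ^ (C i ∩ C j).card := by rw [prod_const]
  -- the average of the `Y i`
  set X : (E → Bool) → ℝ := fun c => (∑ i ∈ s, Y i c) / s.card with hX
  have hcard : (0 : ℝ) < s.card := by exact_mod_cast hs.card_pos
  have hX1 : ∑ c, μ c * X c = 1 := by
    have : ∑ c, μ c * X c = (∑ i ∈ s, ∑ c, μ c * Y i c) / s.card := by
      rw [sum_comm, sum_div]
      refine sum_congr rfl fun c _ => ?_
      rw [hX]
      simp only
      rw [mul_div_assoc', mul_sum]
    rw [this, sum_congr rfl hE1]
    simp [hcard.ne']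
  have hX2 : ∑ c, μ c * (X c) ^ 2 ≤
      (∑ i ∈ s, ∑ j ∈ s, a ^ (C i ∩ C j).card) / (s.card : ℝ) ^ 2 := by
    have : ∑ c, μ c * (X c) ^ 2 = (∑ i ∈ s, ∑ j ∈ s, ∑ c, μ c * (Y i c * Y j c)) /
        (s.card : ℝ) ^ 2 := by
      have h5 : ∀ c, μ c * (X c) ^ 2 = (∑ i ∈ s, ∑ j ∈ s, μ c * (Y i c * Y j c)) /
          (s.card : ℝ) ^ 2 := by
        intro c
        rw [hX]
        simp only
        rw [div_pow, mul_div_assoc', sq (∑ i ∈ s, Y i c), sum_mul_sum, mul_sum]
        simp_rw [mul_sum]
      rw [sum_congr rfl fun c _ => h5 c, ← sum_div]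
      congr 1
      rw [sum_comm]
      refine sum_congr rfl fun i _ => ?_
      rw [sum_comm]
    rw [this]
    gcongr with i hi j hj
    exact hE2 i hi j hj
  -- the event
  have hev : ∀ c, (if c ∈ {c : E → Bool | ∀ i ∈ s, ∃ e ∈ C i, c e ≠ b} then μ c else 0) ≤
      μ c * (X c - 1) ^ 2 := by
    intro c
    split_ifs with hc
    · have : X c = 0 := by
        rw [hX]
        simp only
        rw [sum_eq_zero, zero_div]
        intro i hi
        obtain ⟨e, he, hce⟩ := hc i hi
        rw [hY]
        simp only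
        refine prod_eq_zero (mem_univ e) ?_
        simp [he, hce]
      rw [this]
      simp
    · exact mul_nonneg (hμ0 c) (sq_nonneg _)
  calc prob P {c | ∀ i ∈ s, ∃ e ∈ C i, c e ≠ b}
      = ∑ c, (if c ∈ {c : E → Bool | ∀ i ∈ s, ∃ e ∈ C i, c e ≠ b} then μ c else 0) := by
        unfold prob
        refine sum_congr rfl fun c _ => ?_
        congr
    _ ≤ ∑ c, μ c * (X c - 1) ^ 2 := sum_le_sum fun c _ => hev c
    _ = ∑ c, μ c * (X c) ^ 2 - 1 := by
        have : ∀ c, μ c * (X c - 1) ^ 2 = μ c * (X c) ^ 2 - 2 * (μ c * X c) + μ c := by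
          intro c; ring
        rw [sum_congr rfl fun c _ => this c, sum_add_distrib, sum_sub_distrib, ← mul_sum, hX1, hμ1]
        ring
    _ ≤ _ := by linarith

end

end Pool.Agent.H86.Graphon
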