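import Mathlib
import Pool.Agent.H86.Graphon.Prob

/-!
# Spread families of sets from choice functions
-/

set_option autoImplicit false

open Finset

namespace Pool.Agent.H86.Graphon

section

variable {J V : Type*} [Fintype J] [DecidableEq J] [DecidableEq V] {l : ℕ}

/-- The transversal with choice function `ρ`. -/
def transversal (φ : J → Fin l → V) (ρ : J → Fin l) : Finset V :=
  univ.image fun j => φ j (ρ j)

omit [DecidableEq J] in
lemma mem_transversal {φ : J → Fin l → V} {ρ : J → Fin l} {v : V} :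
    v ∈ transversal φ ρ ↔ ∃ j, φ j (ρ j) = v := by
  simp [transversal]

/-- Few transversals contain a given set. -/
lemma card_transversal_le {φ : J → Fin l → V}
    (hφ : Function.Injective fun p : J × Fin l => φ p.1 p.2) (T : Finset V) :
    (univ.filter fun ρ : J → Fin l => T ⊆ transversal φ ρ).card * l ^ T.card ≤
      l ^ Fintype.card J := by
  classical
  rcases (univ.filter fun ρ : J → Fin l => T ⊆ transversal φ ρ).eq_empty_or_nonempty with h | h
  · rw [h]; simp
  · obtain ⟨ρ₀, h₀⟩ := h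
    rw [mem_filter] at h₀
    have h₀ := h₀.2
    set JT : Finset J := univ.filter fun j => φ j (ρ₀ j) ∈ T with hJT
    have hcard : JT.card = T.card := by
      refine card_bij (fun j _ => φ j (ρ₀ j)) (fun j hj => (mem_filter.mp hj).2) ?_ ?_
      · intro j _ j' _ hjj
        have := @hφ (j, ρ₀ j) (j', ρ₀ j') hjj
        exact (Prod.mk.inj this).1
      · intro v hv
        obtain ⟨j, hj⟩ := mem_transversal.mp (h₀ hv)
        exact ⟨j, mem_filter.mpr ⟨mem_univ _, by rw [hj]; exact hv⟩, hj⟩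
    have hsub : (univ.filter fun ρ : J → Fin l => T ⊆ transversal φ ρ) ⊆
        Fintype.piFinset (fun j => if j ∈ JT then {ρ₀ j} else univ) := by
      intro ρ hρ
      rw [mem_filter] at hρ
      rw [Fintype.mem_piFinset]
      intro j
      by_cases hj : j ∈ JT
      · rw [if_pos hj, mem_singleton]
        obtain ⟨j', hj'⟩ := mem_transversal.mp (hρ.2 (mem_filter.mp hj).2)
        have := @hφ (j', ρ j') (j, ρ₀ j) hj'
        have h1 := (Prod.mk.inj this).1
        have h2 := (Prod.mk.inj this).2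
        subst h1
        exact h2
      · rw [if_neg hj]
        exact mem_univ _
    have h1 := card_le_card hsub
    rw [Fintype.card_piFinset] at h1
    have h2 : ∏ j, (if j ∈ JT then ({ρ₀ j} : Finset (Fin l)) else univ).card =
        l ^ (Fintype.card J - T.card) := by
      have h3 : ∀ j, (if j ∈ JT then ({ρ₀ j} : Finset (Fin l)) else univ).card =
          if j ∈ JT then 1 else l := by
        intro j
        split_ifs <;> simp
      rw [prod_congr rfl fun j _ => h3 j, prod_ite, prod_const_one, one_mul, prod_const]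
      congr 1
      rw [← hcard, filter_not, card_sdiff_of_subset (filter_subset _ _), card_univ]
      congr 2
      ext j
      simp
    have h3 : T.card ≤ Fintype.card J := by
      rw [← hcard]
      exact card_le_univ _
    calc _ ≤ l ^ (Fintype.card J - T.card) * l ^ T.card := by
          rw [← h2]
          exact Nat.mul_le_mul_right _ h1
      _ = l ^ Fintype.card J := by rw [← pow_add, Nat.sub_add_cancel h3]

/-- The second moment of a family of subsets of transversals. -/
lemma sum_inter_le {φ : J → Fin l → V}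
    (hφ : Function.Injective fun p : J × Fin l => φ p.1 p.2) (hl : 0 < l)
    (s : Finset (J → Fin l)) (hs : l ^ Fintype.card J ≤ 2 * s.card)
    (S : (J → Fin l) → Finset V) (hS : ∀ ρ ∈ s, S ρ ⊆ transversal φ ρ) {k : ℕ}
    (hk : ∀ ρ ∈ s, (S ρ).card ≤ k) {D : ℝ} (hD : 0 ≤ D) :
    ∑ ρ ∈ s, ∑ ρ' ∈ s, (1 + D) ^ (S ρ ∩ S ρ').card ≤
      (s.card : ℝ) ^ 2 * (1 + 2 * ((1 + D / l) ^ k - 1)) := by
  classical
  have hl' : (0 : ℝ) < l := by exact_mod_cast hl
  have hone : ∀ ρ ∈ s, ∑ ρ' ∈ s, (1 + D) ^ (S ρ ∩ S ρ').card ≤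
      (s.card : ℝ) * (1 + 2 * ((1 + D / l) ^ k - 1)) := by
    intro ρ hρ
    have hexp : ∀ ρ' : J → Fin l, (1 + D) ^ (S ρ ∩ S ρ').card =
        ∑ T ∈ (S ρ).powerset, if T ⊆ S ρ' then D ^ T.card else 0 := by
      intro ρ'
      have h := Finset.sum_pow_mul_eq_add_pow D 1 (S ρ ∩ S ρ')
      rw [add_comm] at h
      rw [← h, ← sum_filter]
      simp only [one_pow, mul_one]
      refine sum_congr ?_ fun _ _ => rfl
      ext T
      rw [mem_powerset, mem_filter, mem_powerset, subset_inter_iff]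
    rw [sum_congr rfl fun ρ' _ => hexp ρ', sum_comm]
    have hT : ∀ T ∈ (S ρ).powerset, T ≠ ∅ →
        ∑ ρ' ∈ s, (if T ⊆ S ρ' then D ^ T.card else 0) ≤
          2 * (s.card : ℝ) * (D / l) ^ T.card := by
      intro T _ _
      rw [← sum_filter, sum_const, nsmul_eq_mul]
      have h1 : (s.filter fun ρ' => T ⊆ S ρ').card ≤
          (univ.filter fun ρ : J → Fin l => T ⊆ transversal φ ρ).card := by
        refine card_le_card fun ρ' hρ' => ?_
        rw [mem_filter] at hρ' ⊢
        exact ⟨mem_univ _, hρ'.2.trans (hS ρ' hρ'.1)⟩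
      have h2 := card_transversal_le hφ T
      have h3 : ((s.filter fun ρ' => T ⊆ S ρ').card : ℝ) * (l : ℝ) ^ T.card ≤ 2 * s.card := by
        have : (s.filter fun ρ' => T ⊆ S ρ').card * l ^ T.card ≤ 2 * s.card :=
          ((Nat.mul_le_mul_right _ h1).trans h2).trans hs
        exact_mod_cast this
      rw [div_pow, mul_div_assoc', le_div_iff₀ (pow_pos hl' _)]
      calc _ = (((s.filter fun ρ' => T ⊆ S ρ').card : ℝ) * (l : ℝ) ^ T.card) * D ^ T.card := by ring
        _ ≤ (2 * s.card) * D ^ T.card := mul_le_mul_of_nonneg_right h3 (pow_nonneg hD _)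
    have hempty : ∑ ρ' ∈ s, (if (∅ : Finset V) ⊆ S ρ' then D ^ (∅ : Finset V).card else 0) =
        (s.card : ℝ) := by simp
    have hmem : (∅ : Finset V) ∈ (S ρ).powerset := by simp
    rw [← add_sum_erase _ _ hmem, hempty]
    have hrest : ∑ T ∈ (S ρ).powerset.erase ∅, ∑ ρ' ∈ s, (if T ⊆ S ρ' then D ^ T.card else 0) ≤
        2 * (s.card : ℝ) * ((1 + D / l) ^ k - 1) := by
      calc _ ≤ ∑ T ∈ (S ρ).powerset.erase ∅, 2 * (s.card : ℝ) * (D / l) ^ T.card :=
            sum_le_sum fun T hT' => hT T (mem_of_mem_erase hT') (ne_of_mem_erase hT')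
        _ = 2 * (s.card : ℝ) * ((1 + D / l) ^ (S ρ).card - 1) := by
            rw [← mul_sum]
            congr 1
            have h := Finset.sum_pow_mul_eq_add_pow (D / l) 1 (S ρ)
            simp only [one_pow, mul_one] at h
            rw [← add_sum_erase _ _ hmem] at h
            simp only [card_empty, pow_zero] at h
            rw [add_comm (D / (l : ℝ)) 1] at h
            linarith
        _ ≤ 2 * (s.card : ℝ) * ((1 + D / l) ^ k - 1) := by
            have : (1 : ℝ) ≤ 1 + D / l := by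
              have := div_nonneg hD hl'.le
              linarith
            have := pow_le_pow_right₀ this (hk ρ hρ)
            gcongr
    calc _ ≤ (s.card : ℝ) + 2 * (s.card : ℝ) * ((1 + D / l) ^ k - 1) := by linarith
      _ = _ := by ring
  calc _ ≤ ∑ ρ ∈ s, (s.card : ℝ) * (1 + 2 * ((1 + D / l) ^ k - 1)) := sum_le_sum hone
    _ = _ := by rw [sum_const, nsmul_eq_mul]; ring

end

section

variable {V : Type*} [DecidableEq V]

/-- The edges inside `S`. -/
def edges (S : Finset V) : Finset (Sym2 V) := S.offDiag.image fun p => s(p.1, p.2)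

lemma mem_edges {S : Finset V} {u v : V} : s(u, v) ∈ edges S ↔ u ∈ S ∧ v ∈ S ∧ u ≠ v := by
  unfold edges
  rw [mem_image]
  constructor
  · rintro ⟨⟨a, b⟩, hab, he⟩
    rw [mem_offDiag] at hab
    obtain ⟨h1, h2, h3⟩ := hab
    simp only at h1 h2 h3 he
    rw [Sym2.eq_iff] at he
    rcases he with ⟨rfl, rfl⟩ | ⟨rfl, rfl⟩
    · exact ⟨h1, h2, h3⟩
    · exact ⟨h2, h1, h3.symm⟩
  · rintro ⟨h1, h2, h3⟩
    exact ⟨(u, v), mem_offDiag.mpr ⟨h1, h2, h3⟩, rfl⟩

lemma card_edges (S : Finset V) : (edges S).card = S.card.choose 2 :=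
  Sym2.card_image_offDiag S

lemma edges_inter_subset (S S' : Finset V) : edges S ∩ edges S' ⊆ edges (S ∩ S') := by
  intro e
  induction e with
  | _ u v =>
    rw [mem_inter, mem_edges, mem_edges, mem_edges]
    rintro ⟨⟨h1, h2, h3⟩, h4, h5, -⟩
    exact ⟨mem_inter.mpr ⟨h1, h4⟩, mem_inter.mpr ⟨h2, h5⟩, h3⟩

/-- `a ^ e(S ∩ S') ≤ (A ^ k) ^ |S ∩ S'|` if `a = A ^ 2` and `|S| ≤ k`. -/
lemma pow_edges_le {A : ℝ} (hA : 1 ≤ A) (S S' : Finset V) {k : ℕ} (hk : S.card ≤ k) :
    (A ^ 2) ^ (edges S ∩ edges S').card ≤ (A ^ k) ^ (S ∩ S').card := by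
  have h1 : (edges S ∩ edges S').card ≤ (S ∩ S').card.choose 2 := by
    rw [← card_edges]
    exact card_le_card (edges_inter_subset S S')
  have h2 : (S ∩ S').card ≤ k := (card_le_card inter_subset_left).trans hk
  rw [← pow_mul, ← pow_mul]
  refine pow_le_pow_right₀ hA ?_
  have h3 : 2 * (S ∩ S').card.choose 2 ≤ (S ∩ S').card * (S ∩ S').card := by
    rw [Nat.choose_two_right, Nat.mul_div_cancel' (Nat.even_mul_pred_self _).two_dvd]
    exact Nat.mul_le_mul_left _ (Nat.sub_le _ _)
  calc 2 * (edges S ∩ edges S').card ≤ 2 * (S ∩ S').card.choose 2 := Nat.mul_le_mul_left _ h1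
    _ ≤ (S ∩ S').card * (S ∩ S').card := h3
    _ ≤ k * (S ∩ S').card := Nat.mul_le_mul_right _ h2

end

end Pool.Agent.H86.Graphon
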