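import Mathlib

/-!
# Cliques without bad pairs
-/

set_option autoImplicit false

open Finset

namespace Pool.Agent.H86.Graphon

/-- The Erdős–Szekeres bound. -/
lemma erdos_szekeres {α : Type*} [DecidableEq α] (r : α → α → Prop) (hr : ∀ x y, r x y → r y x) :
    ∀ (n a b : ℕ), a + b = n → ∀ Y : Finset α, (a + b).choose a ≤ Y.card →
      (∃ S ⊆ Y, S.card = a + 1 ∧ ∀ x ∈ S, ∀ y ∈ S, x ≠ y → r x y) ∨
      ∃ S ⊆ Y, S.card = b + 1 ∧ ∀ x ∈ S, ∀ y ∈ S, x ≠ y → ¬ r x y := by
  classical
  intro n
  induction n with
  | zero =>
    intro a b hab Y hY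
    obtain rfl : a = 0 := by omega
    obtain rfl : b = 0 := by omega
    simp only [add_zero, Nat.choose_self] at hY
    obtain ⟨x, hx⟩ := card_pos.mp (by omega : 0 < Y.card)
    exact Or.inl ⟨{x}, by simpa using hx, by simp, by simp⟩
  | succ n ih =>
    intro a b hab Y hY
    rcases Nat.eq_zero_or_pos a with rfl | ha
    · simp only [zero_add, Nat.choose_zero_right] at hY
      obtain ⟨x, hx⟩ := card_pos.mp (by omega : 0 < Y.card)
      exact Or.inl ⟨{x}, by simpa using hx, by simp, by simp⟩
    rcases Nat.eq_zero_or_pos b with rfl | hb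
    · simp only [add_zero, Nat.choose_self] at hY
      obtain ⟨x, hx⟩ := card_pos.mp (by omega : 0 < Y.card)
      exact Or.inr ⟨{x}, by simpa using hx, by simp, by simp⟩
    obtain ⟨a, rfl⟩ : ∃ a', a = a' + 1 := ⟨a - 1, by omega⟩
    obtain ⟨b, rfl⟩ : ∃ b', b = b' + 1 := ⟨b - 1, by omega⟩
    have hsplit : (a + 1 + (b + 1)).choose (a + 1) =
        (a + (b + 1)).choose a + (a + 1 + b).choose (a + 1) := by
      rw [show a + 1 + (b + 1) = (a + (b + 1)) + 1 by ring, Nat.choose_succ_succ,
        show a + 1 + b = a + (b + 1) by ring]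
    have hpos : 0 < (a + (b + 1)).choose a := Nat.choose_pos (by omega)
    obtain ⟨x, hx⟩ := card_pos.mp (by omega : 0 < Y.card)
    have h1 := card_filter_add_card_filter_not (s := Y.erase x) (fun y => r x y)
    rw [card_erase_of_mem hx] at h1
    have h2 : (a + (b + 1)).choose a ≤ ((Y.erase x).filter fun y => r x y).card ∨
        (a + 1 + b).choose (a + 1) ≤ ((Y.erase x).filter fun y => ¬ r x y).card := by
      by_contra hcon
      push Not at hcon
      omega
    rcases h2 with h2 | h2
    · rcases ih a (b + 1) (by omega) _ h2 with ⟨S, hS, hc, hq⟩ | ⟨S, hS, hc, hq⟩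
      · have hxS : x ∉ S := fun h => by
          have := hS h
          simp at this
        refine Or.inl ⟨insert x S, ?_, by rw [card_insert_of_notMem hxS, hc], ?_⟩
        · intro y hy
          rcases mem_insert.mp hy with rfl | hy
          · exact hx
          · exact mem_of_mem_erase (mem_filter.mp (hS hy)).1
        · intro y hy z hz hyz
          rcases mem_insert.mp hy with rfl | hy' <;> rcases mem_insert.mp hz with rfl | hz'
          · exact absurd rfl hyz
          · exact (mem_filter.mp (hS hz')).2
          · exact hr _ _ (mem_filter.mp (hS hy')).2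
          · exact hq y hy' z hz' hyz
      · exact Or.inr ⟨S, hS.trans ((filter_subset _ _).trans (erase_subset _ _)), hc, hq⟩
    · rcases ih (a + 1) b (by omega) _ h2 with ⟨S, hS, hc, hq⟩ | ⟨S, hS, hc, hq⟩
      · exact Or.inl ⟨S, hS.trans ((filter_subset _ _).trans (erase_subset _ _)), hc, hq⟩
      · have hxS : x ∉ S := fun h => by
          have := hS h
          simp at this
        refine Or.inr ⟨insert x S, ?_, by rw [card_insert_of_notMem hxS, hc], ?_⟩
        · intro y hy
          rcases mem_insert.mp hy with rfl | hy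
          · exact hx
          · exact mem_of_mem_erase (mem_filter.mp (hS hy)).1
        · intro y hy z hz hyz
          rcases mem_insert.mp hy with rfl | hy' <;> rcases mem_insert.mp hz with rfl | hz'
          · exact absurd rfl hyz
          · exact (mem_filter.mp (hS hz')).2
          · exact fun h => (mem_filter.mp (hS hy')).2 (hr _ _ h)
          · exact hq y hy' z hz' hyz

/-- Markov's inequality for the number of elements with many marked partners. -/
lemma card_filter_lt_mul_le {α β : Type*} (A : Finset α) (B : Finset β) (r : α → β → Prop)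
    [∀ x y, Decidable (r x y)] (d : ℕ) :
    (A.filter fun x => d < (B.filter fun y => r x y).card).card * (d + 1) ≤
      ∑ x ∈ A, (B.filter fun y => r x y).card := by
  calc _ = ∑ x ∈ A.filter (fun x => d < (B.filter fun y => r x y).card), (d + 1) := by
        rw [sum_const, smul_eq_mul]
    _ ≤ ∑ x ∈ A.filter (fun x => d < (B.filter fun y => r x y).card),
          (B.filter fun y => r x y).card :=
        sum_le_sum fun x hx => (mem_filter.mp hx).2
    _ ≤ _ := sum_le_sum_of_subset (filter_subset _ _)

/-- Double counting. -/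
lemma sum_card_filter_comm {α β : Type*} (A : Finset α) (B : Finset β) (r : α → β → Prop)
    [∀ x y, Decidable (r x y)] :
    ∑ x ∈ A, (B.filter fun y => r x y).card = ∑ y ∈ B, (A.filter fun x => r x y).card := by
  simp only [card_filter]
  exact sum_comm

/-- **Selection lemma.**  Let `R i`, `i < M`, be disjoint sets of `h` vertices without blue cliques
of size `k`, and let some pairs of vertices be bad, with few bad pairs between the `R i`.  Then
there are red cliques of size `s` in the `R i` without bad pairs between them. -/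
lemma select {α : Type*} [DecidableEq α] {M : ℕ} (R : ℕ → Finset α)
    (hdisj : ∀ i < M, ∀ j < M, i ≠ j → Disjoint (R i) (R j))
    (red : α → α → Prop) (hred : ∀ x y, red x y → red y x)
    (bad : α → α → Prop) (hbad : ∀ x y, bad x y → bad y x)
    [∀ x y, Decidable (bad x y)]
    {h k m s d b N β : ℕ} (hR : ∀ i < M, (R i).card = h)
    (hblue : ∀ i < M, ∀ T ⊆ R i, T.card = k → ∃ x ∈ T, ∃ y ∈ T, x ≠ y ∧ red x y)
    (hβ : ∀ i < M, ∑ x ∈ R i,
      (((range M).biUnion R \ R i).filter fun y => bad x y).card ≤ β)
    (h1 : 2 * β ≤ d * h) (h2 : 4 * (M * m * d) ≤ b * h)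
    (hN : ∀ U : Finset α, U.card ≤ M * m → (U.powerset.filter fun D => D.card ≤ b).card ≤ N)
    (h3 : 4 * (N * (m + k).choose m) ≤ h) (h4 : s + M * b ≤ m) :
    ∃ S : ℕ → Finset α, ∀ i < M, S i ⊆ R i ∧ (S i).card = s ∧
      (∀ x ∈ S i, ∀ y ∈ S i, x ≠ y → red x y) ∧
      ∀ j < M, i ≠ j → ∀ x ∈ S i, ∀ y ∈ S j, ¬ bad x y := by
  classical
  set W : Finset α := (range M).biUnion R with hW
  -- vertices with few bad partners
  set R' : ℕ → Finset α := fun i =>
    (R i).filter fun x => ((W \ R i).filter fun y => bad x y).card ≤ d with hR'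
  have hR'sub : ∀ i, R' i ⊆ R i := fun i => filter_subset _ _
  have hR'card : ∀ i < M, h ≤ 2 * (R' i).card := by
    intro i hi
    have ha := card_filter_lt_mul_le (R i) (W \ R i) bad d
    have hb := ha.trans (hβ i hi)
    have hc := card_filter_add_card_filter_not (s := R i)
      (fun x => ((W \ R i).filter fun y => bad x y).card ≤ d)
    simp only [not_le] at hc
    rw [hR i hi] at hc
    have hd : 2 * ((R i).filter fun x => d < ((W \ R i).filter fun y => bad x y).card).card *
        (d + 1) ≤ h * (d + 1) := by nlinarith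
    have he := Nat.le_of_mul_le_mul_right hd (Nat.succ_pos d)
    have hf : (R' i).card = ((R i).filter fun x =>
      ((W \ R i).filter fun y => bad x y).card ≤ d).card := rfl
    omega
  have key : ∀ j ≤ M, ∃ A : ℕ → Finset α, ∀ i < j, A i ⊆ R' i ∧ (A i).card ≤ m ∧
      m ≤ (A i).card + j * b ∧ (∀ x ∈ A i, ∀ y ∈ A i, x ≠ y → red x y) ∧
      ∀ i' < j, i ≠ i' → ∀ x ∈ A i, ∀ y ∈ A i', ¬ bad x y := by
    intro j
    induction j with
    | zero => intro _; exact ⟨fun _ => ∅, by simp⟩
    | succ j ih =>
      intro hj
      obtain ⟨A, hA⟩ := ih (by omega)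
      set U : Finset α := (range j).biUnion A with hU
      have hUcard : U.card ≤ M * m := by
        calc U.card ≤ ∑ i ∈ range j, (A i).card := card_biUnion_le
          _ ≤ ∑ i ∈ range j, m := sum_le_sum fun i hi => (hA i (mem_range.mp hi)).2.1
          _ = j * m := by rw [sum_const, card_range, smul_eq_mul]
          _ ≤ M * m := Nat.mul_le_mul_right _ (by omega)
      -- vertices of `R' j` with few bad partners in `U`
      set Y₀ : Finset α := (R' j).filter fun x => (U.filter fun y => bad x y).card ≤ b with hY₀
      have hY₀card : h ≤ 4 * Y₀.card := by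
        have ha := card_filter_lt_mul_le (R' j) U bad b
        rw [sum_card_filter_comm] at ha
        have hb : ∑ y ∈ U, ((R' j).filter fun x => bad x y).card ≤ M * m * d := by
          calc _ ≤ ∑ y ∈ U, d := by
                refine sum_le_sum fun y hy => ?_
                obtain ⟨i, hi, hyi⟩ := mem_biUnion.mp hy
                have hi := mem_range.mp hi
                have hy' := (hA i hi).1 hyi
                rw [hR', mem_filter] at hy'
                refine (card_le_card fun x hx => ?_).trans hy'.2
                rw [mem_filter] at hx ⊢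
                refine ⟨mem_sdiff.mpr ⟨?_, ?_⟩, hbad _ _ hx.2⟩
                · exact mem_biUnion.mpr ⟨j, mem_range.mpr (by omega), hR'sub j hx.1⟩
                · exact fun hxi => (Finset.disjoint_left.mp
                    (hdisj j (by omega) i (by omega) (by omega))) (hR'sub j hx.1) hxi
            _ = U.card * d := by rw [sum_const, smul_eq_mul]
            _ ≤ M * m * d := Nat.mul_le_mul_right _ hUcard
        have hc := card_filter_add_card_filter_not (s := R' j)
          (fun x => (U.filter fun y => bad x y).card ≤ b)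
        simp only [not_le] at hc
        have hd : 4 * ((R' j).filter fun x => b < (U.filter fun y => bad x y).card).card *
            (b + 1) ≤ h * (b + 1) := by nlinarith
        have he := Nat.le_of_mul_le_mul_right hd (Nat.succ_pos b)
        have hf := hR'card j (by omega)
        have hg : Y₀.card = ((R' j).filter fun x =>
          (U.filter fun y => bad x y).card ≤ b).card := rfl
        omega
      -- pigeonhole
      have hmaps : ∀ x ∈ Y₀, (U.filter fun y => bad x y) ∈
          U.powerset.filter fun D => D.card ≤ b := by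
        intro x hx
        rw [mem_filter, mem_powerset]
        exact ⟨filter_subset _ _, (mem_filter.mp hx).2⟩
      have hne : (U.powerset.filter fun D => D.card ≤ b).Nonempty :=
        ⟨∅, by simp⟩
      have hpig : (U.powerset.filter fun D => D.card ≤ b).card * (m + k).choose m ≤ Y₀.card := by
        have := Nat.mul_le_mul_right ((m + k).choose m) (hN U hUcard)
        omega
      obtain ⟨D, hD, hfib⟩ := exists_le_card_fiber_of_mul_le_card_of_maps_to hmaps hne hpig
      have hDb : D.card ≤ b := (mem_filter.mp hD).2
      obtain ⟨A₀, hA₀sub, hA₀card, hA₀⟩ : ∃ A₀ ⊆ Y₀.filter (fun x => (U.filter fun y => bad x y) = D),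
          A₀.card = m ∧ ∀ x ∈ A₀, ∀ y ∈ A₀, x ≠ y → red x y := by
        rcases erdos_szekeres red hred _ m k rfl _ hfib with ⟨S, hS, hc, hq⟩ | ⟨S, hS, hc, hq⟩
        · obtain ⟨A₀, h5, h6⟩ := exists_subset_card_eq (by omega : m ≤ S.card)
          exact ⟨A₀, h5.trans hS, h6, fun x hx y hy => hq x (h5 hx) y (h5 hy)⟩
        · exfalso
          obtain ⟨T, h5, h6⟩ := exists_subset_card_eq (by omega : k ≤ S.card)
          have h7 : T ⊆ R j := fun x hx =>
            hR'sub j (mem_filter.mp (mem_filter.mp (hS (h5 hx))).1).1
          obtain ⟨x, hx, y, hy, hxy, hxy'⟩ := hblue j (by omega) T h7 h6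
          exact hq x (h5 hx) y (h5 hy) hxy hxy'
      have hA₀bad : ∀ x ∈ A₀, ∀ i < j, ∀ y ∈ A i, y ∉ D → ¬ bad x y := by
        intro x hx i hi y hy hyD hxy
        apply hyD
        rw [← (mem_filter.mp (hA₀sub hx)).2, mem_filter]
        exact ⟨mem_biUnion.mpr ⟨i, mem_range.mpr hi, hy⟩, hxy⟩
      refine ⟨fun i => if i = j then A₀ else A i \ D, ?_⟩
      intro i hi
      by_cases hij : i = j
      · subst hij
        simp only [if_true]
        refine ⟨fun x hx => (mem_filter.mp (mem_filter.mp (hA₀sub hx)).1).1, hA₀card.le, by omega,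
          hA₀, ?_⟩
        intro i' hi' hne' x hx y hy
        rw [if_neg (fun h => hne' h.symm)] at hy
        exact hA₀bad x hx i' (by omega) y (mem_sdiff.mp hy).1 (mem_sdiff.mp hy).2
      · have hi' : i < j := by omega
        obtain ⟨ha, hb, hc, hd, he⟩ := hA i hi'
        simp only [if_neg hij]
        refine ⟨sdiff_subset.trans ha, (card_le_card sdiff_subset).trans hb, ?_, ?_, ?_⟩
        · have h5 : (A i).card ≤ (A i \ D).card + D.card := by
            rw [card_sdiff_add_card]
            exact card_le_card subset_union_left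
          have h6 : (j + 1) * b = j * b + b := by ring
          omega
        · exact fun x hx y hy => hd x (mem_sdiff.mp hx).1 y (mem_sdiff.mp hy).1
        · intro i' hi'' hne' x hx y hy
          by_cases hij' : i' = j
          · rw [if_pos hij'] at hy
            exact fun hxy => hA₀bad y hy i hi' x (mem_sdiff.mp hx).1 (mem_sdiff.mp hx).2
              (hbad _ _ hxy)
          · rw [if_neg hij'] at hy
            exact he i' (by omega) hne' x (mem_sdiff.mp hx).1 y (mem_sdiff.mp hy).1
  obtain ⟨A, hA⟩ := key M le_rfl
  have hex : ∀ i, ∃ S : Finset α, i < M → S ⊆ A i ∧ S.card = s := by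
    intro i
    by_cases hi : i < M
    · have := (hA i hi).2.2.1
      obtain ⟨S, h5, h6⟩ := exists_subset_card_eq (by omega : s ≤ (A i).card)
      exact ⟨S, fun _ => ⟨h5, h6⟩⟩
    · exact ⟨∅, fun h => absurd h hi⟩
  choose S hS using hex
  refine ⟨S, fun i hi => ?_⟩
  obtain ⟨ha, hb, hc, hd, he⟩ := hA i hi
  refine ⟨((hS i hi).1.trans ha).trans (hR'sub i), (hS i hi).2,
    fun x hx y hy => hd x ((hS i hi).1 hx) y ((hS i hi).1 hy), ?_⟩
  intro j hj hij x hx y hy
  exact he j hj hij x ((hS i hi).1 hx) y ((hS j hj).1 hy)

end Pool.Agent.H86.Graphon
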