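import Mathlib
import Pool.Agent.H86.Graphon.Spread
import Pool.Agent.H86.Graphon.Select

/-!
# Homogeneous sets from pieces with good pairs
-/

set_option autoImplicit false

open Finset

namespace Pool.Agent.H86.Graphon

section

variable {V : Type*} [DecidableEq V]

/-- The colouring `c` of the pairs of vertices has a homogeneous set of size `k`. -/
def HasHomog (c : Sym2 V → Bool) (k : ℕ) : Prop :=
  ∃ T : Finset V, T.card = k ∧ ∃ b : Bool, ∀ u ∈ T, ∀ v ∈ T, u ≠ v → c s(u, v) = b

/-- The number of transversals with many marked pairs is small. -/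
lemma card_bad_transversal_le {J : Type*} [Fintype J] [DecidableEq J] {l : ℕ} (hl : 0 < l)
    {φ : J → Fin l → V} (hφ : Function.Injective fun p : J × Fin l => φ p.1 p.2)
    (B : Finset (V × V)) (hB : ∀ p ∈ B, p.1 ≠ p.2) (β : ℕ) (hβ : 2 * B.card ≤ β * l ^ 2) :
    2 * (univ.filter fun ρ : J → Fin l =>
      β < (B.filter fun p => {p.1, p.2} ⊆ transversal φ ρ).card).card ≤ l ^ Fintype.card J := by
  classical
  have h1 := card_filter_lt_mul_le (univ : Finset (J → Fin l)) B
    (fun ρ p => {p.1, p.2} ⊆ transversal φ ρ) β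
  rw [sum_card_filter_comm] at h1
  have h2 : (∑ p ∈ B, (univ.filter fun ρ : J → Fin l =>
      {p.1, p.2} ⊆ transversal φ ρ).card) * l ^ 2 ≤ B.card * l ^ Fintype.card J := by
    rw [sum_mul, ← smul_eq_mul (B.card), ← sum_const]
    refine sum_le_sum fun p hp => ?_
    have h3 := card_transversal_le hφ {p.1, p.2}
    rw [card_pair (hB p hp)] at h3
    exact h3
  set x := (univ.filter fun ρ : J → Fin l =>
      β < (B.filter fun p => {p.1, p.2} ⊆ transversal φ ρ).card).card with hx
  have hl2 : 0 < l ^ 2 := pow_pos hl 2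
  have h3 : 2 * x * ((β + 1) * l ^ 2) ≤ l ^ Fintype.card J * ((β + 1) * l ^ 2) := by
    calc 2 * x * ((β + 1) * l ^ 2) = 2 * (x * (β + 1) * l ^ 2) := by ring
      _ ≤ 2 * ((∑ p ∈ B, (univ.filter fun ρ : J → Fin l =>
            {p.1, p.2} ⊆ transversal φ ρ).card) * l ^ 2) := by gcongr
      _ ≤ 2 * (B.card * l ^ Fintype.card J) := by gcongr
      _ = (2 * B.card) * l ^ Fintype.card J := by ring
      _ ≤ (β * l ^ 2) * l ^ Fintype.card J := by gcongr
      _ ≤ ((β + 1) * l ^ 2) * l ^ Fintype.card J := by gcongr; omega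
      _ = _ := by ring
  exact Nat.le_of_mul_le_mul_right h3 (by positivity)

/-- **Core lemma.** -/
theorem core [Fintype V] {P : Sym2 V → ℝ} (hP : ∀ e, P e ∈ Set.Icc (0 : ℝ) 1) (b : Bool)
    {M h l : ℕ} (hl : 0 < l) (φ : Fin M × Fin h → Fin l → V)
    (hφ : Function.Injective fun p : (Fin M × Fin h) × Fin l => φ p.1 p.2)
    {A : ℝ} (hA : 1 ≤ A) {k m s d t N β : ℕ}
    (B : Finset (V × V))
    (hB : ∀ i j : Fin M, i ≠ j → ∀ a x a' x',
      ¬ 1 ≤ A ^ 2 * coin (P s(φ (i, a) x, φ (j, a') x')) b → (φ (i, a) x, φ (j, a') x') ∈ B)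
    (hBne : ∀ p ∈ B, p.1 ≠ p.2)
    (hβ : 2 * B.card ≤ β * l ^ 2)
    (h1 : 2 * β ≤ d * h) (h2 : 4 * (M * m * d) ≤ t * h)
    (hN : ∀ U : Finset V, U.card ≤ M * m → (U.powerset.filter fun D => D.card ≤ t).card ≤ N)
    (h3 : 4 * (N * (m + k).choose m) ≤ h) (h4 : s + M * t ≤ m) (hk : k ≤ M * s) :
    prob P {c | ¬ HasHomog c k} ≤ 2 * ((1 + A ^ (M * s) / l) ^ (M * s) - 1) := by
  classical
  have hA0 : (0 : ℝ) < A := by linarith
  have hl' : (0 : ℝ) < l := by exact_mod_cast hl
  have hbound : 0 ≤ 2 * ((1 + A ^ (M * s) / l) ^ (M * s) - 1) := by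
    have : (1 : ℝ) ≤ (1 + A ^ (M * s) / l) ^ (M * s) := by
      apply one_le_pow₀
      have : 0 ≤ A ^ (M * s) / l := by positivity
      linarith
    linarith
  -- blocks
  set Bl : Fin M → Finset V := fun i =>
    univ.image fun p : Fin h × Fin l => φ (i, p.1) p.2 with hBl
  have hmemBl : ∀ i v, v ∈ Bl i ↔ ∃ a x, φ (i, a) x = v := by
    intro i v
    simp only [hBl, mem_image, mem_univ, true_and, Prod.exists]
  have hBldisj : ∀ i j v, v ∈ Bl i → v ∈ Bl j → i = j := by
    intro i j v hi hj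
    obtain ⟨a, x, rfl⟩ := (hmemBl _ _).mp hi
    obtain ⟨a', x', hx⟩ := (hmemBl _ _).mp hj
    have := @hφ ((j, a'), x') ((i, a), x) hx
    simp only [Prod.mk.injEq] at this
    exact this.1.1.symm
  set X : Set (Sym2 V) := {e | ¬ ∃ i, ∀ v ∈ e, v ∈ Bl i} with hX
  refine prob_le_of_cond hP X _ fun c₀ => ?_
  by_cases hcase : ∃ i, ∃ T ⊆ Bl i, T.card = k ∧ ∀ x ∈ T, ∀ y ∈ T, x ≠ y → c₀ s(x, y) = !b
  · -- a large homogeneous set in a block
    obtain ⟨i, T, hTi, hTk, hT⟩ := hcase
    rw [prob_cond_eq_zero]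
    · exact hbound
    · intro c hc
      by_contra hcon
      push Not at hcon
      apply hc
      refine ⟨T, hTk, !b, fun u hu v hv huv => ?_⟩
      rw [← hT u hu v hv huv]
      apply hcon
      rw [hX]
      simp only [Set.mem_ofPred_eq, not_not]
      refine ⟨i, fun w hw => ?_⟩
      rcases Sym2.mem_iff.mp hw with rfl | rfl
      · exact hTi hu
      · exact hTi hv
  · push Not at hcase
    -- the transversal in block `i`
    set R : (Fin M × Fin h → Fin l) → ℕ → Finset V := fun ρ i =>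
      if hi : i < M then univ.image fun a : Fin h => φ (⟨i, hi⟩, a) (ρ (⟨i, hi⟩, a)) else ∅ with hR
    have hRmem : ∀ ρ i (hi : i < M) v, v ∈ R ρ i ↔ ∃ a, φ (⟨i, hi⟩, a) (ρ (⟨i, hi⟩, a)) = v := by
      intro ρ i hi v
      rw [hR]
      simp only [dif_pos hi, mem_image, mem_univ, true_and]
    have hRBl : ∀ ρ i (hi : i < M) v, v ∈ R ρ i → v ∈ Bl ⟨i, hi⟩ := by
      intro ρ i hi v hv
      obtain ⟨a, rfl⟩ := (hRmem ρ i hi v).mp hv
      exact (hmemBl _ _).mpr ⟨a, _, rfl⟩
    have hRtr : ∀ ρ i, i < M → R ρ i ⊆ transversal φ ρ := by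
      intro ρ i hi v hv
      obtain ⟨a, rfl⟩ := (hRmem ρ i hi v).mp hv
      exact mem_transversal.mpr ⟨_, rfl⟩
    have hRdisj : ∀ ρ, ∀ i < M, ∀ j < M, i ≠ j → Disjoint (R ρ i) (R ρ j) := by
      intro ρ i hi j hj hij
      rw [Finset.disjoint_left]
      intro v hv hv'
      have := hBldisj _ _ v (hRBl ρ i hi v hv) (hRBl ρ j hj v hv')
      exact hij (Fin.mk.inj this)
    have hRcard : ∀ ρ, ∀ i < M, (R ρ i).card = h := by
      intro ρ i hi
      rw [hR]
      simp only [dif_pos hi]
      rw [card_image_of_injective, card_univ, Fintype.card_fin]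
      intro a a' haa
      have := @hφ ((⟨i, hi⟩, a), _) ((⟨i, hi⟩, a'), _) haa
      simp only [Prod.mk.injEq] at this
      exact this.1.2
    -- good transversals
    set good : Finset (Fin M × Fin h → Fin l) :=
      univ.filter fun ρ => (B.filter fun p => {p.1, p.2} ⊆ transversal φ ρ).card ≤ β with hgood
    have hgoodcard : l ^ Fintype.card (Fin M × Fin h) ≤ 2 * good.card := by
      have h5 := card_bad_transversal_le hl hφ B hBne β hβ
      have h6 := card_filter_add_card_filter_not (s := (univ : Finset (Fin M × Fin h → Fin l)))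
        (fun ρ => (B.filter fun p => {p.1, p.2} ⊆ transversal φ ρ).card ≤ β)
      simp only [not_le] at h6
      rw [card_univ, Fintype.card_fun, Fintype.card_fin] at h6
      have h7 : good.card = (univ.filter fun ρ : Fin M × Fin h → Fin l =>
        (B.filter fun p => {p.1, p.2} ⊆ transversal φ ρ).card ≤ β).card := rfl
      omega
    have hgoodne : good.Nonempty := by
      rw [← card_pos]
      have : 0 < l ^ Fintype.card (Fin M × Fin h) := pow_pos hl _
      omega
    -- the selected cliques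
    have hsel : ∀ ρ ∈ good, ∃ S : ℕ → Finset V, ∀ i < M, S i ⊆ R ρ i ∧ (S i).card = s ∧
        (∀ x ∈ S i, ∀ y ∈ S i, x ≠ y → c₀ s(x, y) = b) ∧
        ∀ j < M, i ≠ j → ∀ x ∈ S i, ∀ y ∈ S j,
          ¬ ¬ 1 ≤ A ^ 2 * coin (P s(x, y)) b := by
      intro ρ hρ
      refine select (R ρ) (hRdisj ρ) (fun x y => c₀ s(x, y) = b)
        (fun x y hxy => by rw [Sym2.eq_swap]; exact hxy)
        (fun x y => ¬ 1 ≤ A ^ 2 * coin (P s(x, y)) b)
        (fun x y hxy => by rw [Sym2.eq_swap]; exact hxy) (hRcard ρ) ?_ ?_ h1 h2 hN h3 h4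
      · intro i hi T hT hTk
        obtain ⟨x, hx, y, hy, hxy, hne⟩ := hcase ⟨i, hi⟩ T (fun v hv => hRBl ρ i hi v (hT hv)) hTk
        refine ⟨x, hx, y, hy, hxy, ?_⟩
        rcases hc : c₀ s(x, y) with _ | _ <;> rcases b with _ | _ <;> simp_all
      · intro i hi
        have hρ' := (mem_filter.mp hρ).2
        refine le_trans ?_ hρ'
        rw [← card_sigma]
        refine card_le_card_of_injOn (fun q => (q.1, q.2)) ?_ ?_
        · rintro ⟨x, y⟩ hxy
          simp only [coe_sigma, Set.mem_sigma_iff, mem_coe, mem_filter, mem_sdiff, mem_biUnion,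
            mem_range] at hxy
          obtain ⟨hx, ⟨⟨j, hj, hyj⟩, hyi⟩, hbad⟩ := hxy
          simp only [mem_coe, mem_filter]
          have hij : i ≠ j := fun hij => hyi (hij ▸ hyj)
          refine ⟨?_, ?_⟩
          · obtain ⟨a, rfl⟩ := (hRmem ρ i hi x).mp hx
            obtain ⟨a', rfl⟩ := (hRmem ρ j hj y).mp hyj
            exact hB _ _ (fun h => hij (Fin.mk.inj h)) _ _ _ _ hbad
          · intro v hv
            rcases mem_insert.mp hv with rfl | hv
            · exact hRtr ρ i hi hx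
            · rw [mem_singleton] at hv
              rw [hv]
              exact hRtr ρ j hj hyj
        · rintro ⟨x, y⟩ _ ⟨x', y'⟩ _ hq
          simp only [Prod.mk.injEq] at hq
          obtain ⟨rfl, rfl⟩ := hq
          rfl
    choose! S hS using hsel
    set SS : (Fin M × Fin h → Fin l) → Finset V := fun ρ => (range M).biUnion (S ρ) with hSS
    have hSScard : ∀ ρ ∈ good, (SS ρ).card = M * s := by
      intro ρ hρ
      rw [hSS]
      simp only
      rw [card_biUnion]
      · rw [sum_congr rfl fun i hi => (hS ρ hρ i (mem_range.mp hi)).2.1, sum_const, card_range,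
          smul_eq_mul]
      · intro i hi j hj hij
        exact (hRdisj ρ i (mem_range.mp hi) j (mem_range.mp hj) hij).mono
          (hS ρ hρ i (mem_range.mp hi)).1 (hS ρ hρ j (mem_range.mp hj)).1
    have hSStr : ∀ ρ ∈ good, SS ρ ⊆ transversal φ ρ := by
      intro ρ hρ v hv
      obtain ⟨i, hi, hvi⟩ := mem_biUnion.mp hv
      exact hRtr ρ i (mem_range.mp hi) ((hS ρ hρ i (mem_range.mp hi)).1 hvi)
    have hedge : ∀ ρ ∈ good, ∀ e ∈ edges (SS ρ), 1 ≤ A ^ 2 * coin (cond P X c₀ e) b := by
      intro ρ hρ e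
      induction e with
      | _ u v =>
        intro he
        obtain ⟨hu, hv, huv⟩ := mem_edges.mp he
        obtain ⟨i, hi, hui⟩ := mem_biUnion.mp hu
        obtain ⟨j, hj, hvj⟩ := mem_biUnion.mp hv
        have hi := mem_range.mp hi
        have hj := mem_range.mp hj
        obtain ⟨g1, g2, g3, g4⟩ := hS ρ hρ i hi
        obtain ⟨g1', g2', g3', g4'⟩ := hS ρ hρ j hj
        have hui' := hRBl ρ i hi u (g1 hui)
        have hvj' := hRBl ρ j hj v (g1' hvj)
        by_cases hij : i = j
        · subst hij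
          have hnX : s(u, v) ∉ X := by
            rw [hX]
            simp only [Set.mem_ofPred_eq, not_not]
            refine ⟨⟨i, hi⟩, fun w hw => ?_⟩
            rcases Sym2.mem_iff.mp hw with rfl | rfl
            · exact hui'
            · exact hvj'
          have hc := g3 u hui v hvj huv
          have hcoin : coin (cond P X c₀ s(u, v)) b = 1 := by
            unfold cond coin
            rw [if_neg hnX, hc]
            rcases b with _ | _ <;> simp
          rw [hcoin, mul_one]
          exact one_le_pow₀ hA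
        · have hXmem : s(u, v) ∈ X := by
            rw [hX]
            rintro ⟨i', hi'⟩
            have e1 := hBldisj _ _ u hui' (hi' u (Sym2.mem_mk_left u v))
            have e2 := hBldisj _ _ v hvj' (hi' v (Sym2.mem_mk_right u v))
            exact hij (Fin.mk.inj (e1.trans e2.symm))
          have hcoin : cond P X c₀ s(u, v) = P s(u, v) := by
            unfold cond
            rw [if_pos hXmem]
          rw [hcoin]
          exact not_not.mp (g4 j hj hij u hui v hvj)
    have hA2 : (1 : ℝ) ≤ A ^ 2 := one_le_pow₀ hA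
    have hsm := second_moment (cond_mem hP X c₀) b good hgoodne (fun ρ => edges (SS ρ)) hA2 hedge
    refine (prob_mono (cond_mem hP X c₀) ?_).trans (hsm.trans ?_)
    · intro c hc ρ hρ
      by_contra hcon
      push Not at hcon
      apply hc
      obtain ⟨T, hT, hTk⟩ := exists_subset_card_eq (hk.trans (hSScard ρ hρ).ge)
      exact ⟨T, hTk, b, fun u hu v hv huv => hcon _ (mem_edges.mpr ⟨hT hu, hT hv, huv⟩)⟩
    · have hD : 0 ≤ A ^ (M * s) - 1 := by
        have : (1 : ℝ) ≤ A ^ (M * s) := one_le_pow₀ hA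
        linarith
      have hsum := sum_inter_le hφ hl good hgoodcard SS hSStr
        (fun ρ hρ => (hSScard ρ hρ).le) hD
      have hle : ∑ ρ ∈ good, ∑ ρ' ∈ good, (A ^ 2) ^ (edges (SS ρ) ∩ edges (SS ρ')).card ≤
          ∑ ρ ∈ good, ∑ ρ' ∈ good, (1 + (A ^ (M * s) - 1)) ^ (SS ρ ∩ SS ρ').card := by
        refine sum_le_sum fun ρ hρ => sum_le_sum fun ρ' _ => ?_
        rw [add_sub_cancel]
        exact pow_edges_le hA _ _ (hSScard ρ hρ).le
      have hg0 : (0 : ℝ) < (good.card : ℝ) ^ 2 := by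
        have : (0 : ℝ) < good.card := by exact_mod_cast hgoodne.card_pos
        positivity
      have h5 : (∑ ρ ∈ good, ∑ ρ' ∈ good, (A ^ 2) ^ (edges (SS ρ) ∩ edges (SS ρ')).card) /
          (good.card : ℝ) ^ 2 ≤ 1 + 2 * ((1 + (A ^ (M * s) - 1) / l) ^ (M * s) - 1) := by
        rw [div_le_iff₀ hg0]
        calc _ ≤ _ := hle.trans hsum
          _ = _ := by ring
      have h6 : (1 + (A ^ (M * s) - 1) / l) ^ (M * s) ≤ (1 + A ^ (M * s) / l) ^ (M * s) := by
        gcongr
        linarith
      linarith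

end

end Pool.Agent.H86.Graphon
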