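import Mathlib
import Pool.Agent.H86.Graphon.Core

/-!
# Pieces of a block structure
-/

set_option autoImplicit false

open Finset

namespace Pool.Agent.H86.Graphon

/-- Many disjoint `w`-sets inside the cells of `f`. -/
lemma exists_pieces {V : Type*} [Fintype V] [DecidableEq V] {q : ℕ} (f : V → Fin q) (w : ℕ) :
    ∀ g : ℕ, g * w + q * w ≤ Fintype.card V → ∃ B : Fin g → Finset V,
      (∀ i j, i ≠ j → Disjoint (B i) (B j)) ∧ (∀ i, (B i).card = w) ∧
      ∀ i, ∀ u ∈ B i, ∀ v ∈ B i, f u = f v := by
  classical
  intro g
  induction g with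
  | zero => intro _; exact ⟨fun _ => ∅, fun i => i.elim0, fun i => i.elim0, fun i => i.elim0⟩
  | succ g ih =>
    intro hg
    rcases Nat.eq_zero_or_pos w with rfl | hw
    · exact ⟨fun _ => ∅, fun _ _ _ => by simp, fun _ => by simp, fun _ => by simp⟩
    have hmul : (g + 1) * w = g * w + w := by ring
    obtain ⟨B, hB1, hB2, hB3⟩ := ih (by omega)
    set Y : Finset V := univ \ univ.biUnion B with hY
    have hYcard : q * w ≤ Y.card := by
      have h1 : (univ.biUnion B).card ≤ g * w := by
        calc _ ≤ ∑ i, (B i).card := card_biUnion_le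
          _ = g * w := by rw [sum_congr rfl fun i _ => hB2 i]; simp
      have h2 : Y.card = Fintype.card V - (univ.biUnion B).card := by
        rw [hY, card_sdiff_of_subset (subset_univ _), card_univ]
      omega
    have hVpos : 0 < Fintype.card V := by omega
    have hYne : Y.Nonempty := by
      rw [← card_pos]
      rcases Nat.eq_zero_or_pos q with rfl | hq
      · obtain ⟨v⟩ := Fintype.card_pos_iff.mp hVpos
        exact (f v).elim0
      · exact lt_of_lt_of_le (Nat.mul_pos hq hw) hYcard
    obtain ⟨v₀, -⟩ := hYne
    have hmaps : ∀ v ∈ Y, f v ∈ (univ : Finset (Fin q)) := fun v _ => mem_univ _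
    obtain ⟨c, -, hc⟩ := exists_le_card_fiber_of_mul_le_card_of_maps_to hmaps
      ⟨f v₀, mem_univ _⟩ (by rw [card_univ, Fintype.card_fin]; exact hYcard)
    obtain ⟨Z, hZ, hZw⟩ := exists_subset_card_eq hc
    have hZdisj : ∀ i, Disjoint Z (B i) := by
      intro i
      rw [Finset.disjoint_left]
      intro v hv hv'
      have h1 := (mem_filter.mp (hZ hv)).1
      rw [hY, mem_sdiff] at h1
      exact h1.2 (mem_biUnion.mpr ⟨i, mem_univ _, hv'⟩)
    refine ⟨Fin.cons Z B, ?_, ?_, ?_⟩
    · intro i
      refine Fin.cases ?_ (fun i => ?_) i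
      · intro j
        refine Fin.cases ?_ (fun j => ?_) j
        · intro h; exact absurd rfl h
        · intro _
          simpa using hZdisj j
      · intro j
        refine Fin.cases ?_ (fun j => ?_) j
        · intro _
          simpa using (hZdisj i).symm
        · intro h
          simpa using hB1 i j (fun h' => h (by rw [h']))
    · intro i
      refine Fin.cases ?_ (fun i => ?_) i
      · simpa using hZw
      · simpa using hB2 i
    · intro i
      refine Fin.cases ?_ (fun i => ?_) i
      · intro u hu v hv
        simp only [Fin.cons_zero] at hu hv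
        rw [(mem_filter.mp (hZ hu)).2, (mem_filter.mp (hZ hv)).2]
      · simpa using hB3 i

/-- A greedy independent set. -/
lemma exists_indep {α : Type*} [DecidableEq α] (r : α → α → Prop)
    [∀ x y, Decidable (r x y)] (D : ℕ) : ∀ (R : ℕ) (X : Finset α),
    (∀ x ∈ X, (X.filter fun y => r x y ∨ r y x).card ≤ D) → R * (D + 1) ≤ X.card →
      ∃ I ⊆ X, I.card = R ∧ ∀ x ∈ I, ∀ y ∈ I, x ≠ y → ¬ r x y := by
  intro R
  induction R with
  | zero => intro X _ _; exact ⟨∅, by simp, by simp, by simp⟩
  | succ R ih =>
    intro X hX hR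
    have hmul : (R + 1) * (D + 1) = R * (D + 1) + (D + 1) := by ring
    obtain ⟨x, hx⟩ := card_pos.mp (by omega : 0 < X.card)
    set X' := (X.erase x).filter fun y => ¬ (r x y ∨ r y x) with hX'
    have h1 := card_filter_add_card_filter_not (s := X.erase x) (fun y => r x y ∨ r y x)
    rw [card_erase_of_mem hx] at h1
    have h2 : ((X.erase x).filter fun y => r x y ∨ r y x).card ≤ D :=
      (card_le_card (filter_subset_filter _ (erase_subset _ _))).trans (hX x hx)
    have h3 : X'.card = ((X.erase x).filter fun y => ¬ (r x y ∨ r y x)).card := rfl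
    have hX'sub : X' ⊆ X := (filter_subset _ _).trans (erase_subset _ _)
    obtain ⟨I, hI, hIc, hI'⟩ := ih X' (fun y hy =>
      (card_le_card (filter_subset_filter _ hX'sub)).trans (hX y (hX'sub hy))) (by omega)
    have hxI : x ∉ I := fun h => by
      have := hI h
      rw [hX', mem_filter] at this
      exact (mem_erase.mp this.1).1 rfl
    refine ⟨insert x I, ?_, by rw [card_insert_of_notMem hxI, hIc], ?_⟩
    · intro y hy
      rcases mem_insert.mp hy with rfl | hy
      · exact hx
      · exact hX'sub (hI hy)
    · intro y hy z hz hyz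
      rcases mem_insert.mp hy with rfl | hy' <;> rcases mem_insert.mp hz with rfl | hz'
      · exact absurd rfl hyz
      · have := (mem_filter.mp (hI hz')).2
        push Not at this
        exact this.1
      · have := (mem_filter.mp (hI hy')).2
        push Not at this
        exact this.2
      · exact hI' y hy' z hz' hyz

/-- Number of pairs of pieces with many marked pairs of vertices. -/
lemma card_pairs_mul_le {V : Type*} [DecidableEq V] {g : ℕ} (B : Fin g → Finset V)
    (hB : ∀ i j, i ≠ j → Disjoint (B i) (B j)) (E : Finset (V × V)) (T : ℕ) :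
    (univ.filter fun p : Fin g × Fin g => T < (E ∩ B p.1 ×ˢ B p.2).card).card * (T + 1) ≤
      E.card := by
  classical
  calc _ = ∑ p ∈ univ.filter (fun p : Fin g × Fin g => T < (E ∩ B p.1 ×ˢ B p.2).card),
        (T + 1) := by rw [sum_const, smul_eq_mul]
    _ ≤ ∑ p ∈ univ.filter (fun p : Fin g × Fin g => T < (E ∩ B p.1 ×ˢ B p.2).card),
        (E ∩ B p.1 ×ˢ B p.2).card := sum_le_sum fun p hp => (mem_filter.mp hp).2
    _ = ((univ.filter (fun p : Fin g × Fin g => T < (E ∩ B p.1 ×ˢ B p.2).card)).biUnion
        fun p => E ∩ B p.1 ×ˢ B p.2).card := by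
        rw [card_biUnion]
        rintro ⟨i, j⟩ _ ⟨i', j'⟩ _ hne
        change Disjoint (E ∩ B i ×ˢ B j) (E ∩ B i' ×ˢ B j')
        rw [Finset.disjoint_left]
        rintro ⟨u, v⟩ h1 h2
        simp only [mem_inter, mem_product] at h1 h2
        apply hne
        have e1 : i = i' := by
          by_contra h
          exact (Finset.disjoint_left.mp (hB i i' h)) h1.2.1 h2.2.1
        have e2 : j = j' := by
          by_contra h
          exact (Finset.disjoint_left.mp (hB j j' h)) h1.2.2 h2.2.2
        rw [e1, e2]
    _ ≤ E.card := by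
        refine card_le_card fun v hv => ?_
        obtain ⟨p, -, hp⟩ := mem_biUnion.mp hv
        exact (mem_inter.mp hp).1

end Pool.Agent.H86.Graphon
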