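import Mathlib
import Pool.Agent.H86.Graphon.Pieces

/-!
# Colourings close to block structures, with explicit parameters
-/

set_option autoImplicit false

open Finset

namespace Pool.Agent.H86.Graphon

/-- Choose `R` pieces without marked pairs. -/
lemma exists_good_pieces {g : ℕ} (r : Fin g → Fin g → Prop) [∀ x y, Decidable (r x y)]
    {N₁ D R : ℕ} (hN : (univ.filter fun p : Fin g × Fin g => r p.1 p.2).card ≤ N₁)
    (h1 : 4 * N₁ ≤ (D + 1) * g) (h2 : 2 * (R * (2 * D + 1)) ≤ g) :
    ∃ I : Finset (Fin g), I.card = R ∧ ∀ x ∈ I, ∀ y ∈ I, x ≠ y → ¬ r x y := by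
  classical
  have ha := card_filter_lt_mul_le (univ : Finset (Fin g)) univ r D
  have hb := card_filter_lt_mul_le (univ : Finset (Fin g)) univ (fun x y => r y x) D
  have hs1 : ∑ x : Fin g, (univ.filter fun y => r x y).card ≤ N₁ := by
    refine le_trans (le_of_eq ?_) hN
    rw [card_filter, Fintype.sum_prod_type]
    exact sum_congr rfl fun x _ => card_filter _ _
  have hs2 : ∑ x : Fin g, (univ.filter fun y => r y x).card ≤ N₁ := by
    refine le_trans (le_of_eq ?_) hN
    rw [card_filter, Fintype.sum_prod_type_right]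
    exact sum_congr rfl fun x _ => card_filter _ _
  set X1 := univ.filter fun x : Fin g => D < (univ.filter fun y => r x y).card with hX1
  set X2 := univ.filter fun x : Fin g => D < (univ.filter fun y => r y x).card with hX2
  have hc1 : 4 * X1.card ≤ g := by
    have : 4 * X1.card * (D + 1) ≤ g * (D + 1) := by nlinarith
    exact Nat.le_of_mul_le_mul_right this (Nat.succ_pos D)
  have hc2 : 4 * X2.card ≤ g := by
    have : 4 * X2.card * (D + 1) ≤ g * (D + 1) := by nlinarith
    exact Nat.le_of_mul_le_mul_right this (Nat.succ_pos D)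
  set X := univ \ (X1 ∪ X2) with hX
  have hXcard : g ≤ 2 * X.card := by
    have h3 : X.card = g - (X1 ∪ X2).card := by
      rw [hX, card_sdiff_of_subset (subset_univ _), card_univ, Fintype.card_fin]
    have h4 := card_union_le X1 X2
    have h5 : (X1 ∪ X2).card ≤ g := by
      have := card_le_univ (X1 ∪ X2)
      rwa [Fintype.card_fin] at this
    omega
  obtain ⟨I, -, hI, hI'⟩ := exists_indep r (2 * D) R X (by
    intro x hx
    rw [hX, mem_sdiff, mem_union, not_or] at hx
    obtain ⟨-, hx1, hx2⟩ := hx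
    rw [hX1, mem_filter, not_and] at hx1
    rw [hX2, mem_filter, not_and] at hx2
    have h6 := hx1 (mem_univ _)
    have h7 := hx2 (mem_univ _)
    push Not at h6 h7
    have h8 : (X.filter fun y => r x y ∨ r y x) ⊆
        (univ.filter fun y => r x y) ∪ (univ.filter fun y => r y x) := by
      intro y hy
      rw [mem_union, mem_filter, mem_filter]
      rcases (mem_filter.mp hy).2 with h | h
      · exact Or.inl ⟨mem_univ _, h⟩
      · exact Or.inr ⟨mem_univ _, h⟩
    have h9 := (card_le_card h8).trans (card_union_le _ _)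
    omega) (by omega)
  exact ⟨I, hI, hI'⟩

/-- **Medium theorem.** -/
theorem medium {V : Type*} [Fintype V] [DecidableEq V] {P : Sym2 V → ℝ}
    (hP : ∀ e, P e ∈ Set.Icc (0 : ℝ) 1) {q : ℕ} (f : V → Fin q) (Q : Fin q → Fin q → ℝ)
    {δ A : ℝ} (hA : 1 ≤ A) (hAδ : 1 ≤ A ^ 2 * (1 / 2 - δ))
    (E : Finset (V × V)) (hE : ∀ u v, δ < |P s(u, v) - Q (f u) (f v)| → (u, v) ∈ E)
    {g M h l k m s d t N β T D : ℕ} (hl : 0 < l)
    (hg : g * (h * l) + q * (h * l) ≤ Fintype.card V)
    (hD1 : 4 * E.card ≤ (D + 1) * g * (T + 1))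
    (hD2 : 2 * ((M + M).choose M * (2 * D + 1)) ≤ g)
    (hβ : 2 * (M * M * (T + T)) ≤ β * l ^ 2)
    (h1 : 2 * β ≤ d * h) (h2 : 4 * (M * m * d) ≤ t * h)
    (hN : ∀ U : Finset V, U.card ≤ M * m → (U.powerset.filter fun D => D.card ≤ t).card ≤ N)
    (h3 : 4 * (N * (m + k).choose m) ≤ h) (h4 : s + M * t ≤ m) (hk : k ≤ M * s) :
    prob P {c | ¬ HasHomog c k} ≤ 2 * ((1 + A ^ (M * s) / l) ^ (M * s) - 1) := by
  classical
  obtain ⟨B, hB1, hB2, hB3⟩ := exists_pieces f (h * l) g hg
  -- pieces with few marked pairs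
  obtain ⟨I, hIcard, hI⟩ : ∃ I : Finset (Fin g), I.card = (M + M).choose M ∧
      ∀ x ∈ I, ∀ y ∈ I, x ≠ y → ¬ T < (E ∩ B x ×ˢ B y).card := by
    have h5 := card_pairs_mul_le B hB1 E T
    refine exists_good_pieces (fun x y => T < (E ∩ B x ×ˢ B y).card) le_rfl (D := D) ?_ hD2
    have h6 : 4 * (univ.filter fun p : Fin g × Fin g => T < (E ∩ B p.1 ×ˢ B p.2).card).card *
        (T + 1) ≤ (D + 1) * g * (T + 1) := by
      calc _ = 4 * ((univ.filter fun p : Fin g × Fin g =>
            T < (E ∩ B p.1 ×ˢ B p.2).card).card * (T + 1)) := by ring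
        _ ≤ 4 * E.card := Nat.mul_le_mul_left _ h5
        _ ≤ _ := hD1
    exact Nat.le_of_mul_le_mul_right h6 (Nat.succ_pos T)
  rcases Nat.eq_zero_or_pos M with rfl | hM
  · -- trivial case
    have hk0 : k = 0 := by omega
    have hempty : {c : Sym2 V → Bool | ¬ HasHomog c k} = ∅ := by
      ext c
      simp only [Set.mem_ofPred_eq, Set.mem_empty_iff_false, iff_false, not_not]
      exact ⟨∅, by simp [hk0], true, by simp⟩
    rw [hempty]
    simp [prob]
  have hh : 0 < h := by
    have h5 : 0 < (m + k).choose m := Nat.choose_pos (by omega)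
    have h6 := hN ∅ (by simp)
    have h7 : 0 < ((∅ : Finset V).powerset.filter fun D => D.card ≤ t).card :=
      card_pos.mpr ⟨∅, by simp⟩
    have h8 : 0 < N * (m + k).choose m := Nat.mul_pos (by omega) h5
    omega
  have hw : 0 < h * l := Nat.mul_pos hh hl
  -- representatives of the pieces
  have hBne : ∀ i, (B i).Nonempty := fun i => card_pos.mp (by rw [hB2 i]; exact hw)
  set cell : Fin g → Fin q := fun i => f (hBne i).choose with hcell
  have hfcell : ∀ i, ∀ u ∈ B i, f u = cell i := fun i u hu => hB3 i u hu _ (hBne i).choose_spec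
  -- Ramsey's theorem
  set r' : Fin g → Fin g → Prop := fun x y =>
    if x < y then 1 / 2 ≤ Q (cell x) (cell y) else 1 / 2 ≤ Q (cell y) (cell x) with hr'
  have hr'symm : ∀ x y, r' x y → r' y x := by
    intro x y hxy
    rw [hr'] at hxy ⊢
    rcases lt_trichotomy x y with h5 | rfl | h5
    · simp only [if_pos h5, if_neg h5.not_gt] at hxy ⊢
      exact hxy
    · exact hxy
    · simp only [if_pos h5, if_neg h5.not_gt] at hxy ⊢
      exact hxy
  obtain ⟨b, I', hI'sub, hI'card, hI'⟩ : ∃ b : Bool, ∃ I' ⊆ I, I'.card = M ∧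
      ∀ x ∈ I', ∀ y ∈ I', x ≠ y → (r' x y ↔ b = true) := by
    rcases erdos_szekeres r' hr'symm _ M M rfl I hIcard.ge with ⟨S, hS, hc, hq⟩ | ⟨S, hS, hc, hq⟩
    · obtain ⟨I', h5, h6⟩ := exists_subset_card_eq (by omega : M ≤ S.card)
      exact ⟨true, I', h5.trans hS, h6, fun x hx y hy hxy =>
        ⟨fun _ => rfl, fun _ => hq x (h5 hx) y (h5 hy) hxy⟩⟩
    · obtain ⟨I', h5, h6⟩ := exists_subset_card_eq (by omega : M ≤ S.card)
      exact ⟨false, I', h5.trans hS, h6, fun x hx y hy hxy =>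
        ⟨fun h => absurd h (hq x (h5 hx) y (h5 hy) hxy), fun h => by simp at h⟩⟩
  -- good pairs have probability at least `1/2 - δ`
  have hgoodpair : ∀ x ∈ I', ∀ y ∈ I', x ≠ y → ∀ u ∈ B x, ∀ v ∈ B y, (u, v) ∉ E → (v, u) ∉ E →
      1 / 2 - δ ≤ coin (P s(u, v)) b := by
    have hlt : ∀ x ∈ I', ∀ y ∈ I', x < y → ∀ u ∈ B x, ∀ v ∈ B y, (u, v) ∉ E →
        1 / 2 - δ ≤ coin (P s(u, v)) b := by
      intro x hx y hy hxy u hu v hv huv
      have h5 : ¬ δ < |P s(u, v) - Q (f u) (f v)| := fun h => huv (hE u v h)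
      push Not at h5
      rw [hfcell x u hu, hfcell y v hv, abs_le] at h5
      have h6 := hI' x hx y hy hxy.ne
      rw [hr'] at h6
      simp only [if_pos hxy] at h6
      rcases b with _ | _
      · simp only [Bool.false_eq_true, iff_false, not_le] at h6
        simp only [coin, Bool.false_eq_true, if_false]
        linarith [h5.1, h5.2]
      · simp only [iff_true] at h6
        simp only [coin, if_true]
        linarith [h5.1, h5.2]
    intro x hx y hy hxy u hu v hv huv hvu
    rcases lt_or_gt_of_ne hxy with h5 | h5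
    · exact hlt x hx y hy h5 u hu v hv huv
    · rw [Sym2.eq_swap]
      exact hlt y hy x hx h5 v hv u hu hvu
  -- parametrise the pieces
  set o : Fin M → Fin g := fun i => I'.orderEmbOfFin hI'card i with ho
  have hoinj : Function.Injective o := (I'.orderEmbOfFin hI'card).injective
  have homem : ∀ i, o i ∈ I' := fun i => I'.orderEmbOfFin_mem hI'card i
  have hequiv : ∀ i : Fin M, Nonempty (Fin h × Fin l ≃ B (o i)) := by
    intro i
    refine ⟨Fintype.equivOfCardEq ?_⟩
    rw [Fintype.card_prod, Fintype.card_fin, Fintype.card_fin, Fintype.card_coe, hB2]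
  obtain ⟨ψ⟩ : Nonempty (∀ i : Fin M, Fin h × Fin l ≃ B (o i)) := ⟨fun i => (hequiv i).some⟩
  set φ : Fin M × Fin h → Fin l → V := fun p x => (ψ p.1 (p.2, x) : V) with hφ
  have hφmem : ∀ i a x, φ (i, a) x ∈ B (o i) := fun i a x => (ψ i (a, x)).2
  have hφinj : Function.Injective fun p : (Fin M × Fin h) × Fin l => φ p.1 p.2 := by
    rintro ⟨⟨i, a⟩, x⟩ ⟨⟨i', a'⟩, x'⟩ hxx
    simp only at hxx
    have e1 : i = i' := by
      by_contra hne
      have h5 := hφmem i a x
      have h6 := hφmem i' a' x'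
      rw [hxx] at h5
      exact (Finset.disjoint_left.mp (hB1 _ _ (fun h => hne (hoinj h)))) h5 h6
    subst e1
    have h5 : ψ i (a, x) = ψ i (a', x') := Subtype.ext hxx
    have h6 := (ψ i).injective h5
    simp only [Prod.mk.injEq] at h6
    rw [h6.1, h6.2]
  -- marked pairs between the pieces
  set pairs : Finset (Fin M × Fin M) := univ.filter fun p => p.1 ≠ p.2 with hpairs
  set Bad : Finset (V × V) := pairs.biUnion fun p =>
    (E ∩ B (o p.1) ×ˢ B (o p.2)) ∪ ((E ∩ B (o p.2) ×ˢ B (o p.1)).image Prod.swap) with hBad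
  have hBadcard : Bad.card ≤ M * M * (T + T) := by
    calc Bad.card ≤ ∑ p ∈ pairs, ((E ∩ B (o p.1) ×ˢ B (o p.2)) ∪
          ((E ∩ B (o p.2) ×ˢ B (o p.1)).image Prod.swap)).card := card_biUnion_le
      _ ≤ ∑ p ∈ pairs, (T + T) := by
          refine sum_le_sum fun p hp => ?_
          have hne : o p.1 ≠ o p.2 := fun h => (mem_filter.mp hp).2 (hoinj h)
          refine (card_union_le _ _).trans (Nat.add_le_add ?_ (card_image_le.trans ?_))
          · exact not_lt.mp (hI _ (hI'sub (homem _)) _ (hI'sub (homem _)) hne)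
          · exact not_lt.mp (hI _ (hI'sub (homem _)) _ (hI'sub (homem _)) hne.symm)
      _ = pairs.card * (T + T) := by rw [sum_const, smul_eq_mul]
      _ ≤ M * M * (T + T) := by
          refine Nat.mul_le_mul_right _ ((card_le_univ _).trans ?_)
          rw [Fintype.card_prod, Fintype.card_fin]
  refine core hP b hl φ hφinj hA Bad ?_ ?_ ?_ h1 h2 hN h3 h4 hk
  · intro i j hij a x a' x' hbad
    by_contra hcon
    apply hbad
    have hne : o i ≠ o j := fun h => hij (hoinj h)
    have h5 : (φ (i, a) x, φ (j, a') x') ∉ E := by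
      intro h6
      apply hcon
      refine mem_biUnion.mpr ⟨(i, j), mem_filter.mpr ⟨mem_univ _, hij⟩, mem_union_left _ ?_⟩
      exact mem_inter.mpr ⟨h6, mem_product.mpr ⟨hφmem _ _ _, hφmem _ _ _⟩⟩
    have h6 : (φ (j, a') x', φ (i, a) x) ∉ E := by
      intro h6
      apply hcon
      refine mem_biUnion.mpr ⟨(i, j), mem_filter.mpr ⟨mem_univ _, hij⟩, mem_union_right _ ?_⟩
      refine mem_image.mpr ⟨(φ (j, a') x', φ (i, a) x), ?_, rfl⟩
      exact mem_inter.mpr ⟨h6, mem_product.mpr ⟨hφmem _ _ _, hφmem _ _ _⟩⟩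
    have h7 := hgoodpair _ (homem i) _ (homem j) hne _ (hφmem i a x) _ (hφmem j a' x') h5 h6
    calc (1 : ℝ) ≤ A ^ 2 * (1 / 2 - δ) := hAδ
      _ ≤ _ := mul_le_mul_of_nonneg_left h7 (sq_nonneg _)
  · intro p hp
    obtain ⟨pr, hpr, hp'⟩ := mem_biUnion.mp hp
    have hne : o pr.1 ≠ o pr.2 := fun h => (mem_filter.mp hpr).2 (hoinj h)
    rcases mem_union.mp hp' with h5 | h5
    · have h6 := mem_product.mp (mem_inter.mp h5).2
      intro heq
      rw [← heq] at h6
      exact (Finset.disjoint_left.mp (hB1 _ _ hne)) h6.1 h6.2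
    · obtain ⟨p', hp'', rfl⟩ := mem_image.mp h5
      have h6 := mem_product.mp (mem_inter.mp hp'').2
      intro heq
      simp only [Prod.fst_swap, Prod.snd_swap] at heq
      rw [← heq] at h6
      exact (Finset.disjoint_left.mp (hB1 _ _ hne)) h6.2 h6.1
  · exact (Nat.mul_le_mul_left 2 hBadcard).trans hβ

end Pool.Agent.H86.Graphon
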