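import Mathlib
import Pool.Agent.H86.Graphon.Medium

/-!
# Choice of the parameters
-/

set_option autoImplicit false

open Finset Filter

namespace Pool.Agent.H86.Graphon

/-- Number of small subsets. -/
lemma card_small_subsets_le {α : Type*} [DecidableEq α] (U : Finset α) (t : ℕ) {x : ℝ}
    (hx0 : 0 < x) (hx1 : x ≤ 1) :
    ((U.powerset.filter fun D => D.card ≤ t).card : ℝ) ≤ (1 + x) ^ U.card * (1 / x) ^ t := by
  have h1 := Finset.sum_pow_mul_eq_add_pow x 1 U
  simp only [one_pow, mul_one] at h1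
  rw [one_div, inv_pow, ← div_eq_mul_inv, le_div_iff₀ (pow_pos hx0 t), add_comm, ← h1]
  calc ((U.powerset.filter fun D => D.card ≤ t).card : ℝ) * x ^ t
      = ∑ D ∈ U.powerset.filter (fun D => D.card ≤ t), x ^ t := by rw [sum_const, nsmul_eq_mul]
    _ ≤ ∑ D ∈ U.powerset.filter (fun D => D.card ≤ t), x ^ D.card :=
        sum_le_sum fun D hD => pow_le_pow_of_le_one hx0.le hx1 (mem_filter.mp hD).2
    _ ≤ ∑ D ∈ U.powerset, x ^ D.card :=
        sum_le_sum_of_subset_of_nonneg (filter_subset _ _) fun D _ _ => pow_nonneg hx0.le _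

/-- Binomial coefficients. -/
lemma choose_le_pow_mul (n m : ℕ) {x : ℝ} (hx0 : 0 < x) :
    ((n.choose m : ℕ) : ℝ) ≤ (1 + x) ^ n * (1 / x) ^ m := by
  rw [one_div, inv_pow, ← div_eq_mul_inv, le_div_iff₀ (pow_pos hx0 m)]
  rcases le_or_gt m n with hmn | hmn
  · rw [add_comm, add_pow]
    have : ((n.choose m : ℕ) : ℝ) * x ^ m = x ^ m * 1 ^ (n - m) * (n.choose m : ℕ) := by
      rw [one_pow]; ring
    rw [this]
    exact single_le_sum (f := fun i => x ^ i * 1 ^ (n - i) * ((n.choose i : ℕ) : ℝ))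
      (fun i _ => by positivity) (mem_range.mpr (by omega))
  · rw [Nat.choose_eq_zero_of_lt hmn]
    simp only [Nat.cast_zero, zero_mul]
    positivity

lemma eventually_le_rpow (C : ℝ) {a : ℝ} (ha : 0 < a) : ∀ᶠ n : ℕ in atTop, C ≤ (n : ℝ) ^ a :=
  ((tendsto_rpow_atTop ha).comp tendsto_natCast_atTop_atTop).eventually_ge_atTop C

lemma eventually_log_le_rpow (C : ℝ) {a : ℝ} (ha : 0 < a) :
    ∀ᶠ n : ℕ in atTop, C * Real.logb 2 n ≤ (n : ℝ) ^ a := by
  have h1 := (isLittleO_log_rpow_atTop ha).comp_tendsto (tendsto_natCast_atTop_atTop (R := ℝ))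
  have hlog : (0 : ℝ) < Real.log 2 := Real.log_pos (by norm_num)
  obtain ⟨K, hK0, hK⟩ : ∃ K : ℝ, 0 < K ∧ C ≤ K := ⟨|C| + 1, by positivity, by
    have := le_abs_self C
    linarith⟩
  filter_upwards [h1.bound (div_pos hlog hK0), eventually_ge_atTop 1] with n hn hn1
  have hn1' : (1 : ℝ) ≤ n := by exact_mod_cast hn1
  have hna : 0 ≤ (n : ℝ) ^ a := by positivity
  simp only [Function.comp, Real.norm_eq_abs] at hn
  rw [abs_of_nonneg (Real.log_nonneg hn1'), abs_of_nonneg hna] at hn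
  unfold Real.logb
  have hpos : 0 ≤ Real.log n / Real.log 2 := div_nonneg (Real.log_nonneg hn1') hlog.le
  calc C * (Real.log n / Real.log 2) ≤ K * (Real.log n / Real.log 2) :=
        mul_le_mul_of_nonneg_right hK hpos
    _ ≤ K * ((Real.log 2 / K * (n : ℝ) ^ a) / Real.log 2) := by gcongr
    _ = (n : ℝ) ^ a := by
        field_simp

lemma tendsto_logb : Tendsto (fun n : ℕ => Real.logb 2 n) atTop atTop :=
  (Real.tendsto_logb_atTop (by norm_num)).comp tendsto_natCast_atTop_atTop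

/-- `a ^ (c L) = n ^ (c log₂ a)` for `L = log₂ n`. -/
lemma rpow_logb_eq {a : ℝ} (ha : 0 < a) {n : ℕ} (hn : 0 < n) (c : ℝ) :
    a ^ (c * Real.logb 2 n) = (n : ℝ) ^ (c * Real.logb 2 a) := by
  have hn' : (0 : ℝ) < n := by exact_mod_cast hn
  rw [Real.rpow_def_of_pos ha, Real.rpow_def_of_pos hn']
  congr 1
  unfold Real.logb
  ring

end Pool.Agent.H86.Graphon
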