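import Mathlib
import Pool.Agent.H86.Graphon.Params

/-!
# Low complexity colourings have large homogeneous sets
-/

set_option autoImplicit false

open Finset Filter

namespace Pool.Agent.H86.Graphon

lemma one_add_pow_sub_one_le {y : ℝ} (hy : 0 ≤ y) (m : ℕ) (h : (m : ℝ) * y ≤ 1) :
    (1 + y) ^ m - 1 ≤ 2 * (m * y) := by
  have h1 : (1 + y) ^ m ≤ Real.exp (m * y) := by
    calc (1 + y) ^ m ≤ (Real.exp y) ^ m := by
          gcongr
          linarith [Real.add_one_le_exp y]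
      _ = Real.exp (m * y) := by rw [← Real.exp_nat_mul]
  have h0 : 0 ≤ (m : ℝ) * y := by positivity
  have h2 := Real.abs_exp_sub_one_le (x := m * y) (by rw [abs_of_nonneg h0]; exact h)
  rw [abs_of_nonneg h0] at h2
  have h3 := le_abs_self (Real.exp (m * y) - 1)
  linarith

/-- The bound for binomial coefficients and small subsets. -/
lemma choose_bound {ε x θ : ℝ} (hε0 : 0 < ε) (hx0 : 0 < x) (hx1 : x ≤ 1)
    (hx : 1 + x = 2 ^ (ε / 1024)) {M : ℕ} (hM1' : (1 : ℝ) ≤ M)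
    (hM : Real.logb 2 (1 / x) ≤ ε / 1024 * M) (hθ : θ * (32 * (M : ℝ) ^ 2) = 1)
    {n : ℕ} (hn1' : (1 : ℝ) ≤ n)
    (hn3 : 4 * ((1 + x) ^ (2 * M + 2) * (1 / x) ^ 4) ≤ (n : ℝ) ^ (3 * ε / 64))
    {k s m t N h : ℕ} (hk3 : (k : ℝ) ≤ 2 * Real.logb 2 n) (hs : (s : ℝ) ≤ k / M + 1)
    (hs2' : (M : ℝ) * s ≤ k + M) (hm' : (m : ℝ) = 2 * s) (ht2 : (t : ℝ) < 16 * M * s * θ + 1)
    (hN : (N : ℝ) ≤ (1 + x) ^ (M * m) * (1 / x) ^ t) (hh1 : (n : ℝ) ^ (ε / 16) ≤ h) :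
    4 * (N * (m + k).choose m) ≤ h := by
  have hn0 : (0 : ℝ) < n := by linarith
  have hnN : 0 < n := by exact_mod_cast hn0
  have hM0 : (0 : ℝ) < M := by linarith
  obtain ⟨L, hLdef⟩ : ∃ L : ℝ, L = Real.logb 2 n := ⟨_, rfl⟩
  rw [← hLdef] at hk3
  have h1x : 1 ≤ 1 / x := by rw [le_div_iff₀ hx0]; linarith
  have h1x' : (1 : ℝ) ≤ 1 + x := by linarith
  have h3 := choose_le_pow_mul (m + k) m hx0
  -- the exponents
  have e1 : ((M * m + (m + k) : ℕ) : ℝ) ≤ 10 * L + ((2 * M + 2 : ℕ) : ℝ) := by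
    push_cast
    rw [hm']
    have e2 : (k : ℝ) / M ≤ k := div_le_self (by positivity) hM1'
    have e3 : (M : ℝ) * (2 * s) = 2 * (M * s) := by ring
    rw [e3]
    linarith
  have e3 : ((t + m : ℕ) : ℝ) ≤ 6 * L / M + ((4 : ℕ) : ℝ) := by
    push_cast
    rw [hm']
    have e4 : 16 * M * s * θ ≤ s := by
      have e5 : 16 * M * s * θ = s * (16 * M * θ) := by ring
      have e6 : 16 * M * θ ≤ 1 := by
        rw [← hθ]
        have : 16 * (M : ℝ) ≤ 32 * (M : ℝ) ^ 2 := by nlinarith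
        nlinarith
      rw [e5]
      have : (0 : ℝ) ≤ s := by positivity
      nlinarith
    have e6 : (k : ℝ) / M ≤ 2 * L / M := by gcongr
    have e7 : 6 * L / M = 3 * (2 * L / M) := by ring
    rw [e7]
    linarith
  have e8 : (1 + x) ^ (M * m + (m + k)) ≤
      (n : ℝ) ^ (10 * ε / 1024) * (1 + x) ^ (2 * M + 2) := by
    rw [← Real.rpow_natCast (1 + x) (M * m + (m + k)),
      ← Real.rpow_natCast (1 + x) (2 * M + 2)]
    calc (1 + x) ^ ((M * m + (m + k) : ℕ) : ℝ)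
        ≤ (1 + x) ^ (10 * L + ((2 * M + 2 : ℕ) : ℝ)) :=
          Real.rpow_le_rpow_of_exponent_le h1x' e1
      _ = (1 + x) ^ (10 * L) * (1 + x) ^ ((2 * M + 2 : ℕ) : ℝ) :=
          Real.rpow_add (by linarith) _ _
      _ = (n : ℝ) ^ (10 * ε / 1024) * (1 + x) ^ ((2 * M + 2 : ℕ) : ℝ) := by
          congr 1
          rw [hLdef, rpow_logb_eq (by linarith) hnN, hx,
            Real.logb_rpow (by norm_num) (by norm_num)]
          congr 1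
          ring
  have e9 : (1 / x) ^ (t + m) ≤ (n : ℝ) ^ (6 * ε / 1024) * (1 / x) ^ 4 := by
    rw [← Real.rpow_natCast (1 / x) (t + m), ← Real.rpow_natCast (1 / x) 4]
    calc (1 / x) ^ ((t + m : ℕ) : ℝ)
        ≤ (1 / x) ^ (6 * L / M + ((4 : ℕ) : ℝ)) :=
          Real.rpow_le_rpow_of_exponent_le h1x e3
      _ = (1 / x) ^ (6 * L / M) * (1 / x) ^ ((4 : ℕ) : ℝ) :=
          Real.rpow_add (by positivity) _ _
      _ ≤ (n : ℝ) ^ (6 * ε / 1024) * (1 / x) ^ ((4 : ℕ) : ℝ) := by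
          apply mul_le_mul_of_nonneg_right _ (by positivity)
          rw [show 6 * L / (M : ℝ) = 6 / M * L by ring, hLdef,
            rpow_logb_eq (by positivity) hnN]
          apply Real.rpow_le_rpow_of_exponent_le hn1'
          calc 6 / (M : ℝ) * Real.logb 2 (1 / x) ≤ 6 / M * (ε / 1024 * M) := by gcongr
            _ = 6 * ε / 1024 := by field_simp
  have h4 : (N : ℝ) * ((m + k).choose m : ℕ) ≤
      (1 + x) ^ (M * m + (m + k)) * (1 / x) ^ (t + m) := by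
    calc (N : ℝ) * ((m + k).choose m : ℕ) ≤
        ((1 + x) ^ (M * m) * (1 / x) ^ t) * ((1 + x) ^ (m + k) * (1 / x) ^ m) := by
          apply mul_le_mul hN h3 (by positivity) (by positivity)
      _ = _ := by rw [pow_add, pow_add]; ring
  have h1 : (4 : ℝ) * (N * ((m + k).choose m : ℕ)) ≤ h := by
    calc (4 : ℝ) * (N * ((m + k).choose m : ℕ))
        ≤ 4 * ((1 + x) ^ (M * m + (m + k)) * (1 / x) ^ (t + m)) := by linarith
      _ ≤ 4 * (((n : ℝ) ^ (10 * ε / 1024) * (1 + x) ^ (2 * M + 2)) *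
            ((n : ℝ) ^ (6 * ε / 1024) * (1 / x) ^ 4)) := by
          apply mul_le_mul_of_nonneg_left _ (by norm_num)
          exact mul_le_mul e8 e9 (by positivity) (by positivity)
      _ = ((n : ℝ) ^ (10 * ε / 1024) * (n : ℝ) ^ (6 * ε / 1024)) *
            (4 * ((1 + x) ^ (2 * M + 2) * (1 / x) ^ 4)) := by ring
      _ ≤ ((n : ℝ) ^ (10 * ε / 1024) * (n : ℝ) ^ (6 * ε / 1024)) *
            (n : ℝ) ^ (3 * ε / 64) := by
          apply mul_le_mul_of_nonneg_left hn3 (by positivity)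
      _ = (n : ℝ) ^ (ε / 16) := by
          rw [← Real.rpow_add hn0, ← Real.rpow_add hn0]
          congr 1
          ring
      _ ≤ h := hh1
  exact_mod_cast h1

/-- The bound for the error. -/
lemma error_bound {ε A : ℝ} (hε0 : 0 < ε) (hA1 : 1 ≤ A)
    (hAdef : A = 2 ^ ((1 + ε / 8) / 2)) {M n s l : ℕ} (hn1' : (1 : ℝ) ≤ n)
    (hn5 : 192 * A ^ (M + 1) * Real.logb 2 n ≤ (n : ℝ) ^ (ε / 16))
    (hMs1 : (M : ℝ) * s ≤ (2 - ε) * Real.logb 2 n + 1 + M)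
    (hMs2 : (M : ℝ) * s ≤ 3 * Real.logb 2 n)
    (hl3 : (n : ℝ) ^ (1 - ε / 8) / 16 ≤ l) {η : ℝ} (hη1 : η ≤ ε / 16) :
    2 * ((1 + A ^ (M * s) / l) ^ (M * s) - 1) ≤ (n : ℝ) ^ (-η) := by
  have hn0 : (0 : ℝ) < n := by linarith
  have hnN : 0 < n := by exact_mod_cast hn0
  have hA0 : 0 < A := by linarith
  obtain ⟨L, hLdef⟩ : ∃ L : ℝ, L = Real.logb 2 n := ⟨_, rfl⟩
  rw [← hLdef] at hn5 hMs1 hMs2
  have hl0' : (0 : ℝ) < l := by
    have : 0 < (n : ℝ) ^ (1 - ε / 8) := by positivity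
    linarith
  obtain ⟨y, hy⟩ : ∃ y : ℝ, y = A ^ (M * s) / l := ⟨_, rfl⟩
  rw [← hy]
  have hy0 : 0 ≤ y := by rw [hy]; positivity
  have hMs : ((M * s : ℕ) : ℝ) ≤ 3 * L := by
    push_cast
    exact hMs2
  have e1 : ((M * s : ℕ) : ℝ) ≤ (2 - ε) * L + ((M + 1 : ℕ) : ℝ) := by
    push_cast
    linarith
  have e2 : A ^ (M * s) ≤ (n : ℝ) ^ (1 - 3 * ε / 8) * A ^ (M + 1) := by
    rw [← Real.rpow_natCast A (M * s), ← Real.rpow_natCast A (M + 1)]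
    calc A ^ ((M * s : ℕ) : ℝ) ≤ A ^ ((2 - ε) * L + ((M + 1 : ℕ) : ℝ)) :=
          Real.rpow_le_rpow_of_exponent_le hA1 e1
      _ = A ^ ((2 - ε) * L) * A ^ ((M + 1 : ℕ) : ℝ) := Real.rpow_add hA0 _ _
      _ ≤ (n : ℝ) ^ (1 - 3 * ε / 8) * A ^ ((M + 1 : ℕ) : ℝ) := by
          apply mul_le_mul_of_nonneg_right _ (by positivity)
          rw [hLdef, rpow_logb_eq hA0 hnN]
          apply Real.rpow_le_rpow_of_exponent_le hn1'
          rw [hAdef, Real.logb_rpow (by norm_num) (by norm_num)]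
          nlinarith [sq_nonneg ε]
  have hy1 : y ≤ 16 * A ^ (M + 1) * (n : ℝ) ^ (-(ε / 4)) := by
    rw [hy, div_le_iff₀ hl0']
    calc A ^ (M * s) ≤ (n : ℝ) ^ (1 - 3 * ε / 8) * A ^ (M + 1) := e2
      _ = 16 * A ^ (M + 1) * (n : ℝ) ^ (-(ε / 4)) * ((n : ℝ) ^ (1 - ε / 8) / 16) := by
          have : (n : ℝ) ^ (1 - 3 * ε / 8) = (n : ℝ) ^ (-(ε / 4)) * (n : ℝ) ^ (1 - ε / 8) := by
            rw [← Real.rpow_add hn0]
            congr 1
            ring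
          rw [this]
          ring
      _ ≤ 16 * A ^ (M + 1) * (n : ℝ) ^ (-(ε / 4)) * l := by
          apply mul_le_mul_of_nonneg_left hl3 (by positivity)
  have hMsy : 4 * (((M * s : ℕ) : ℝ) * y) ≤ (n : ℝ) ^ (-(3 * ε / 16)) := by
    calc 4 * (((M * s : ℕ) : ℝ) * y)
        ≤ 4 * ((3 * L) * (16 * A ^ (M + 1) * (n : ℝ) ^ (-(ε / 4)))) := by
          apply mul_le_mul_of_nonneg_left _ (by norm_num)
          have hL0 : 0 ≤ 3 * L := le_trans (by positivity) hMs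
          exact mul_le_mul hMs hy1 hy0 hL0
      _ = (192 * A ^ (M + 1) * L) * (n : ℝ) ^ (-(ε / 4)) := by ring
      _ ≤ (n : ℝ) ^ (ε / 16) * (n : ℝ) ^ (-(ε / 4)) := by
          apply mul_le_mul_of_nonneg_right hn5 (by positivity)
      _ = (n : ℝ) ^ (-(3 * ε / 16)) := by
          rw [← Real.rpow_add hn0]
          congr 1
          ring
  have hle1 : (n : ℝ) ^ (-(3 * ε / 16)) ≤ 1 :=
    Real.rpow_le_one_of_one_le_of_nonpos hn1' (by linarith)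
  have hfin := one_add_pow_sub_one_le hy0 (M * s) (by linarith)
  calc 2 * ((1 + y) ^ (M * s) - 1) ≤ 4 * (((M * s : ℕ) : ℝ) * y) := by linarith
    _ ≤ (n : ℝ) ^ (-(3 * ε / 16)) := hMsy
    _ ≤ (n : ℝ) ^ (-η) := Real.rpow_le_rpow_of_exponent_le hn1' (by linarith)

/-- The size of the cells of the choice functions. -/
lemma cell_bound {ε : ℝ} {n h l : ℕ} (hn1' : (1 : ℝ) ≤ n)
    (hh0 : 0 < h) (hh3 : (h : ℝ) ≤ 2 * (n : ℝ) ^ (ε / 16)) (hl : l = n / (2 * (h * h)))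
    (hn4 : 16 ≤ (n : ℝ) ^ (1 - ε / 8)) :
    (n : ℝ) ^ (1 - ε / 8) / 16 ≤ l ∧ (n : ℝ) / 4 ≤ h * (h * l) := by
  have hn0 : (0 : ℝ) < n := by linarith
  have hh0' : (0 : ℝ) < h := by exact_mod_cast hh0
  have hnsplit : (n : ℝ) = (n : ℝ) ^ (ε / 8) * (n : ℝ) ^ (1 - ε / 8) := by
    rw [← Real.rpow_add hn0]
    simp
  have hhh : (h : ℝ) * h ≤ 4 * (n : ℝ) ^ (ε / 8) := by
    have h1 : (n : ℝ) ^ (ε / 8) = (n : ℝ) ^ (ε / 16) * (n : ℝ) ^ (ε / 16) := by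
      rw [← Real.rpow_add hn0]
      congr 1
      ring
    rw [h1]
    nlinarith
  have hl1 : (n : ℝ) < 2 * (h * h) * (l + 1) := by
    have := Nat.lt_mul_div_succ n (by positivity : 0 < 2 * (h * h))
    rw [← hl] at this
    exact_mod_cast this
  have hl3 : (n : ℝ) ^ (1 - ε / 8) / 16 ≤ l := by
    have h0 : 0 < (n : ℝ) ^ (ε / 8) := by positivity
    have h1 : (n : ℝ) ^ (ε / 8) * (n : ℝ) ^ (1 - ε / 8) ≤
        (n : ℝ) ^ (ε / 8) * (8 * (l + 1)) := by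
      rw [← hnsplit]
      calc (n : ℝ) ≤ 2 * (h * h) * (l + 1) := hl1.le
        _ ≤ 2 * (4 * (n : ℝ) ^ (ε / 8)) * (l + 1) := by gcongr
        _ = _ := by ring
    have h2 := le_of_mul_le_mul_left h1 h0
    linarith
  refine ⟨hl3, ?_⟩
  have hl4 : (1 : ℝ) ≤ l := by linarith
  have h1 : (h : ℝ) * h * (l + 1) ≤ h * h * (l + l) := by gcongr
  nlinarith

/-- **Theorem A.** -/
theorem low_complexity {ε : ℝ} (hε0 : 0 < ε) (hε1 : ε ≤ 1) :
    ∃ η : ℝ, 0 < η ∧ ∀ᶠ n : ℕ in atTop, ∀ P : Sym2 (Fin n) → ℝ,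
      (∀ e, P e ∈ Set.Icc (0 : ℝ) 1) → ∀ q : ℕ, (q : ℝ) ≤ (n : ℝ) ^ η →
      ∀ (f : Fin n → Fin q) (Q : Fin q → Fin q → ℝ),
        ∑ u, ∑ v, |P s(u, v) - Q (f u) (f v)| ≤ η * (n : ℝ) ^ 2 →
        prob P {c | ¬ HasHomog c ⌈(2 - ε) * Real.logb 2 n⌉₊} ≤ (n : ℝ) ^ (-η) := by
  classical
  -- the constants
  obtain ⟨x, hx0, hx1, hx⟩ : ∃ x : ℝ, 0 < x ∧ x ≤ 1 ∧ 1 + x = 2 ^ (ε / 1024) := by
    refine ⟨2 ^ (ε / 1024) - 1, ?_, ?_, by ring⟩
    · have : (1 : ℝ) < 2 ^ (ε / 1024) := Real.one_lt_rpow (by norm_num) (by positivity)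
      linarith
    · have : (2 : ℝ) ^ (ε / 1024) ≤ 2 ^ (1 : ℝ) :=
        Real.rpow_le_rpow_of_exponent_le (by norm_num) (by linarith)
      rw [Real.rpow_one] at this
      linarith
  obtain ⟨M, hM1, hM⟩ : ∃ M : ℕ, 1 ≤ M ∧ Real.logb 2 (1 / x) ≤ ε / 1024 * M := by
    refine ⟨⌈Real.logb 2 (1 / x) / (ε / 1024)⌉₊ + 1, by omega, ?_⟩
    have h1 := Nat.le_ceil (Real.logb 2 (1 / x) / (ε / 1024))
    rw [div_le_iff₀ (by positivity)] at h1
    push_cast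
    nlinarith
  have hM1' : (1 : ℝ) ≤ M := by exact_mod_cast hM1
  obtain ⟨C, hC1, hCdef⟩ : ∃ C : ℕ, 1 ≤ C ∧ (M + M).choose M = C :=
    ⟨_, Nat.choose_pos (by omega), rfl⟩
  have hC1' : (1 : ℝ) ≤ C := by exact_mod_cast hC1
  obtain ⟨θ, hθ0, hθ⟩ : ∃ θ : ℝ, 0 < θ ∧ θ * (32 * (M : ℝ) ^ 2) = 1 :=
    ⟨1 / (32 * (M : ℝ) ^ 2), by positivity, by field_simp⟩
  obtain ⟨τ, hτ0, hτ⟩ : ∃ τ : ℝ, 0 < τ ∧ 16 * (M : ℝ) ^ 2 * τ = θ :=
    ⟨θ / (16 * (M : ℝ) ^ 2), by positivity, by field_simp⟩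
  obtain ⟨κ, hκ0, hκ⟩ : ∃ κ : ℝ, 0 < κ ∧ 16 * (C : ℝ) * κ = 1 :=
    ⟨1 / (16 * (C : ℝ)), by positivity, by field_simp⟩
  obtain ⟨A, hA1, hAdef⟩ : ∃ A : ℝ, 1 ≤ A ∧ A = 2 ^ ((1 + ε / 8) / 2) :=
    ⟨_, Real.one_le_rpow (by norm_num) (by positivity), rfl⟩
  have hA0 : 0 < A := by linarith
  obtain ⟨δ, hδ0, hδ⟩ : ∃ δ : ℝ, 0 < δ ∧ A ^ 2 * (1 / 2 - δ) = 1 := by
    have hA2 : A ^ 2 = 2 ^ (1 + ε / 8) := by
      rw [hAdef, ← Real.rpow_natCast, ← Real.rpow_mul (by norm_num)]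
      congr 1
      push_cast
      ring
    have h1 : (2 : ℝ) < A ^ 2 := by
      rw [hA2]
      calc (2 : ℝ) = 2 ^ (1 : ℝ) := by rw [Real.rpow_one]
        _ < 2 ^ (1 + ε / 8) := Real.rpow_lt_rpow_of_exponent_lt (by norm_num) (by linarith)
    refine ⟨1 / 2 - 1 / A ^ 2, ?_, ?_⟩
    · have : 1 / A ^ 2 < 1 / 2 := one_div_lt_one_div_of_lt (by norm_num) h1
      linarith
    · field_simp
      ring
  obtain ⟨η, hη0, hη1, hη2⟩ : ∃ η : ℝ, 0 < η ∧ η ≤ ε / 16 ∧ η ≤ κ * τ * δ / 64 :=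
    ⟨min (ε / 16) (κ * τ * δ / 64), lt_min (by positivity) (by positivity),
      min_le_left _ _, min_le_right _ _⟩
  refine ⟨η, hη0, ?_⟩
  filter_upwards [eventually_ge_atTop 1,
    tendsto_logb.eventually_ge_atTop (2 * (M : ℝ) ^ 2 + 1 / ε + 1),
    eventually_le_rpow (4 * C + 4 / θ + 4) (by positivity : 0 < ε / 16),
    eventually_le_rpow (4 * ((1 + x) ^ (2 * M + 2) * (1 / x) ^ 4))
      (by positivity : 0 < 3 * ε / 64),
    eventually_le_rpow 16 (by linarith : 0 < 1 - ε / 8),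
    eventually_log_le_rpow (192 * A ^ (M + 1)) (by positivity : 0 < ε / 16)] with
    n hn1 hL hn2 hn3 hn4 hn5
  intro P hP q hq f Q hsum
  have hn0 : (0 : ℝ) < n := by exact_mod_cast (by omega : 0 < n)
  have hn1' : (1 : ℝ) ≤ n := by exact_mod_cast hn1
  obtain ⟨L, hLdef⟩ : ∃ L : ℝ, L = Real.logb 2 n := ⟨_, rfl⟩
  rw [← hLdef] at hL
  have hεL : 1 ≤ ε * L := by
    have h0 : 0 ≤ 2 * (M : ℝ) ^ 2 := by positivity
    have : 1 / ε ≤ L := by linarith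
    calc 1 = ε * (1 / ε) := by field_simp
      _ ≤ ε * L := by gcongr
  have hL1 : 2 * (M : ℝ) ^ 2 ≤ L := by
    have : 0 < 1 / ε := by positivity
    linarith
  have hLM : 2 * (M : ℝ) ≤ L := by nlinarith
  have hL0 : 0 < L := by linarith
  -- the parameters
  obtain ⟨k, hk⟩ : ∃ k : ℕ, k = ⌈(2 - ε) * L⌉₊ := ⟨_, rfl⟩
  have hk1 : (2 - ε) * L ≤ k := by rw [hk]; exact Nat.le_ceil _
  have hk2 : (k : ℝ) < (2 - ε) * L + 1 := by
    rw [hk]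
    exact Nat.ceil_lt_add_one (by nlinarith)
  have hk3 : (k : ℝ) ≤ 2 * L := by linarith
  have hk4 : L ≤ k := by nlinarith
  obtain ⟨s, hs⟩ : ∃ s : ℕ, s = k / M + 1 := ⟨_, rfl⟩
  have hs1 : k ≤ M * s := by rw [hs]; exact (Nat.lt_mul_div_succ k (by omega)).le
  have hs2 : M * s ≤ k + M := by
    have := Nat.mul_div_le k M
    rw [hs, mul_add]
    omega
  have hs1' : (k : ℝ) ≤ M * s := by exact_mod_cast hs1
  have hs2' : (M : ℝ) * s ≤ k + M := by exact_mod_cast hs2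
  have hs3 : 2 * (M : ℝ) ≤ s := by
    have h2 : (M : ℝ) * (2 * M) ≤ M * s := by nlinarith
    exact le_of_mul_le_mul_left h2 (by linarith)
  have hs4 : (s : ℝ) ≤ k / M + 1 := by
    rw [hs]
    push_cast
    have := Nat.cast_div_le (α := ℝ) (m := k) (n := M)
    linarith
  obtain ⟨m, hm⟩ : ∃ m : ℕ, m = 2 * s := ⟨_, rfl⟩
  have hm' : (m : ℝ) = 2 * s := by rw [hm]; push_cast; ring
  obtain ⟨t, ht⟩ : ∃ t : ℕ, t = ⌈16 * M * s * θ⌉₊ := ⟨_, rfl⟩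
  have ht1 : 16 * M * s * θ ≤ t := by rw [ht]; exact Nat.le_ceil _
  have ht2 : (t : ℝ) < 16 * M * s * θ + 1 := by
    rw [ht]
    exact Nat.ceil_lt_add_one (by positivity)
  have ht3 : (M : ℝ) * t ≤ s := by
    have h1 : (M : ℝ) * (16 * M * s * θ) = s / 2 := by
      have : (M : ℝ) * (16 * M * s * θ) = s / 2 * (θ * (32 * (M : ℝ) ^ 2)) := by ring
      rw [this, hθ, mul_one]
    nlinarith
  obtain ⟨N, hN⟩ : ∃ N : ℕ, N = ⌊(1 + x) ^ (M * m) * (1 / x) ^ t⌋₊ := ⟨_, rfl⟩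
  obtain ⟨h, hh⟩ : ∃ h : ℕ, h = ⌈(n : ℝ) ^ (ε / 16)⌉₊ := ⟨_, rfl⟩
  have hh1 : (n : ℝ) ^ (ε / 16) ≤ h := by rw [hh]; exact Nat.le_ceil _
  have hh2 : (h : ℝ) < (n : ℝ) ^ (ε / 16) + 1 := by
    rw [hh]
    exact Nat.ceil_lt_add_one (by positivity)
  have h4θ : 0 < 4 / θ := by positivity
  have hh3 : (h : ℝ) ≤ 2 * (n : ℝ) ^ (ε / 16) := by linarith
  have hh4 : 4 ≤ (h : ℝ) := by linarith
  have hh5 : 4 * (C : ℝ) ≤ h := by linarith
  have hh6 : 4 ≤ θ * h := by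
    have : 4 / θ ≤ h := by linarith
    calc 4 = θ * (4 / θ) := by field_simp
      _ ≤ θ * h := by gcongr
  have hh0 : (0 : ℝ) < h := by linarith
  have hhN : 0 < h := by exact_mod_cast hh0
  obtain ⟨l, hl⟩ : ∃ l : ℕ, l = n / (2 * (h * h)) := ⟨_, rfl⟩
  obtain ⟨hl3, hghl⟩ := cell_bound hn1' hhN hh3 hl hn4
  have hl4 : (1 : ℝ) ≤ l := by linarith
  have hl0 : 0 < l := by
    have : (0 : ℝ) < l := by linarith
    exact_mod_cast this
  have hqh : q ≤ h := by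
    have : (q : ℝ) ≤ h := hq.trans ((Real.rpow_le_rpow_of_exponent_le hn1' hη1).trans hh1)
    exact_mod_cast this
  obtain ⟨E, hE⟩ : ∃ E : Finset (Fin n × Fin n),
    E = univ.filter fun p => δ < |P s(p.1, p.2) - Q (f p.1) (f p.2)| := ⟨_, rfl⟩
  have hEcard : (E.card : ℝ) * δ ≤ η * (n : ℝ) ^ 2 := by
    refine le_trans ?_ hsum
    rw [← Fintype.sum_prod_type' (f := fun u v => |P s(u, v) - Q (f u) (f v)|)]
    calc (E.card : ℝ) * δ = ∑ p ∈ E, δ := by rw [sum_const, nsmul_eq_mul]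
      _ ≤ ∑ p ∈ E, |P s(p.1, p.2) - Q (f p.1) (f p.2)| := by
          refine sum_le_sum fun p hp => ?_
          rw [hE] at hp
          exact (mem_filter.mp hp).2.le
      _ ≤ _ := sum_le_sum_of_subset_of_nonneg (subset_univ _) fun p _ _ => abs_nonneg _
  obtain ⟨D, hD⟩ : ∃ D : ℕ, D = ⌊κ * h⌋₊ := ⟨_, rfl⟩
  have hD1 : (D : ℝ) ≤ κ * h := by rw [hD]; exact Nat.floor_le (by positivity)
  have hD2 : κ * h < D + 1 := by rw [hD]; exact Nat.lt_floor_add_one _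
  obtain ⟨T, hT⟩ : ∃ T : ℕ, T = ⌊τ * ((h : ℝ) * l) ^ 2⌋₊ := ⟨_, rfl⟩
  have hT1 : (T : ℝ) ≤ τ * ((h : ℝ) * l) ^ 2 := by
    rw [hT]
    exact Nat.floor_le (by positivity)
  have hT2 : τ * ((h : ℝ) * l) ^ 2 < T + 1 := by rw [hT]; exact Nat.lt_floor_add_one _
  obtain ⟨β, hβ⟩ : ∃ β : ℕ, β = ⌈4 * (M : ℝ) ^ 2 * τ * h ^ 2⌉₊ := ⟨_, rfl⟩
  have hβ1 : 4 * (M : ℝ) ^ 2 * τ * h ^ 2 ≤ β := by rw [hβ]; exact Nat.le_ceil _
  have hβ2 : (β : ℝ) < 4 * (M : ℝ) ^ 2 * τ * h ^ 2 + 1 := by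
    rw [hβ]
    exact Nat.ceil_lt_add_one (by positivity)
  obtain ⟨d, hd⟩ : ∃ d : ℕ, d = ⌈θ * h⌉₊ := ⟨_, rfl⟩
  have hd1 : θ * h ≤ d := by rw [hd]; exact Nat.le_ceil _
  have hd2 : (d : ℝ) < θ * h + 1 := by rw [hd]; exact Nat.ceil_lt_add_one (by positivity)
  -- conditions
  have c1 : h * (h * l) + q * (h * l) ≤ Fintype.card (Fin n) := by
    rw [Fintype.card_fin]
    have h1 := Nat.mul_div_le n (2 * (h * h))
    rw [← hl] at h1
    have h2 : q * (h * l) ≤ h * (h * l) := Nat.mul_le_mul_right _ hqh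
    calc _ ≤ h * (h * l) + h * (h * l) := by omega
      _ = 2 * (h * h) * l := by ring
      _ ≤ n := h1
  have c2 : 4 * E.card ≤ (D + 1) * h * (T + 1) := by
    have h1 : (4 : ℝ) * E.card ≤ (D + 1) * h * (T + 1) := by
      have h2 : κ * τ / 16 * (n : ℝ) ^ 2 ≤ (D + 1) * h * (T + 1) := by
        calc κ * τ / 16 * (n : ℝ) ^ 2 = κ * τ * ((n : ℝ) / 4) ^ 2 := by ring
          _ ≤ κ * τ * ((h : ℝ) * (h * l)) ^ 2 := by gcongr
          _ = (κ * h) * h * (τ * ((h : ℝ) * l) ^ 2) := by ring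
          _ ≤ (D + 1) * h * (T + 1) := by gcongr
      refine le_trans ?_ h2
      have h3 : (E.card : ℝ) * δ ≤ κ * τ * δ / 64 * (n : ℝ) ^ 2 :=
        hEcard.trans (by gcongr)
      have h4 : (E.card : ℝ) * δ ≤ (κ * τ / 64 * (n : ℝ) ^ 2) * δ := by
        refine h3.trans (le_of_eq ?_)
        ring
      have h5 := le_of_mul_le_mul_right h4 hδ0
      linarith
    exact_mod_cast h1
  have c3 : 2 * ((M + M).choose M * (2 * D + 1)) ≤ h := by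
    rw [hCdef]
    have h1 : (2 : ℝ) * (C * (2 * D + 1)) ≤ h := by
      have h2 : (C : ℝ) * D ≤ C * (κ * h) := by gcongr
      have h3 : (C : ℝ) * (κ * h) = h / 16 := by
        have : (C : ℝ) * (κ * h) = h / 16 * (16 * C * κ) := by ring
        rw [this, hκ, mul_one]
      linarith
    exact_mod_cast h1
  have c4 : 2 * (M * M * (T + T)) ≤ β * l ^ 2 := by
    have h1 : (2 : ℝ) * (M * M * (T + T)) ≤ β * l ^ 2 := by
      calc (2 : ℝ) * (M * M * (T + T)) = 4 * (M : ℝ) ^ 2 * T := by ring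
        _ ≤ 4 * (M : ℝ) ^ 2 * (τ * ((h : ℝ) * l) ^ 2) := by gcongr
        _ = (4 * (M : ℝ) ^ 2 * τ * h ^ 2) * l ^ 2 := by ring
        _ ≤ β * l ^ 2 := by gcongr
    exact_mod_cast h1
  have c5 : 2 * β ≤ d * h := by
    have h1 : (2 : ℝ) * β ≤ d * h := by
      have h2 : 2 * (4 * (M : ℝ) ^ 2 * τ * h ^ 2) = θ / 2 * h ^ 2 := by
        rw [← hτ]; ring
      have h3 : θ * h * h ≤ d * h := by gcongr
      nlinarith
    exact_mod_cast h1
  have c6 : 4 * (M * m * d) ≤ t * h := by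
    have h1 : (4 : ℝ) * (M * m * d) ≤ t * h := by
      rw [hm']
      have h2 : (d : ℝ) ≤ 2 * (θ * h) := by linarith
      calc (4 : ℝ) * (M * (2 * s) * d) ≤ 4 * (M * (2 * s) * (2 * (θ * h))) := by gcongr
        _ = (16 * M * s * θ) * h := by ring
        _ ≤ t * h := by gcongr
    exact_mod_cast h1
  have c7 : ∀ U : Finset (Fin n), U.card ≤ M * m →
      (U.powerset.filter fun D => D.card ≤ t).card ≤ N := by
    intro U hU
    rw [hN]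
    refine Nat.le_floor ((card_small_subsets_le U t hx0 hx1).trans ?_)
    apply mul_le_mul_of_nonneg_right _ (by positivity)
    exact pow_le_pow_right₀ (by linarith) hU
  have c8 : 4 * (N * (m + k).choose m) ≤ h := by
    refine choose_bound hε0 hx0 hx1 hx hM1' hM hθ hn1' hn3 ?_ hs4 hs2' hm' ht2 ?_ hh1
    · rw [← hLdef]; exact hk3
    · rw [hN]; exact Nat.floor_le (by positivity)
  have c9 : s + M * t ≤ m := by
    have h1 : (s : ℝ) + M * t ≤ m := by rw [hm']; linarith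
    exact_mod_cast h1
  have hmain := medium hP f Q hA1 hδ.ge E
    (fun u v huv => by rw [hE, mem_filter]; exact ⟨mem_univ _, huv⟩) hl0 c1 c2 c3 c4 c5 c6 c7 c8
    c9 hs1
  rw [← hLdef, ← hk]
  refine hmain.trans (error_bound hε0 hA1 hAdef hn1' hn5 ?_ ?_ hl3 hη1)
  · rw [← hLdef]; linarith
  · rw [← hLdef]; linarith

end Pool.Agent.H86.Graphon
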