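import Mathlib

/-!
# Approximation of graphons by step functions
-/

set_option autoImplicit false

open MeasureTheory Set
open scoped symmDiff ENNReal

namespace Pool.Agent.H86.Graphon

section

variable {Ω : Type*} [MeasurableSpace Ω]

/-- Step functions on the square. -/
def IsStep (g : Ω × Ω → ℝ) : Prop :=
  ∃ (q : ℕ) (f : Ω → Fin q) (Q : Fin q → Fin q → ℝ), Measurable f ∧
    g = fun p => Q (f p.1) (f p.2)

/-- Unions of cells of finite product partitions. -/
def stepSets (Ω : Type*) [MeasurableSpace Ω] : Set (Set (Ω × Ω)) :=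
  {S | ∃ (q : ℕ) (f : Ω → Fin q) (Q : Fin q → Fin q → Prop), Measurable f ∧
    S = {p | Q (f p.1) (f p.2)}}

lemma measurable_pair {q q' : ℕ} {f : Ω → Fin q} {g : Ω → Fin q'} (hf : Measurable f)
    (hg : Measurable g) : Measurable fun x => finProdFinEquiv (f x, g x) :=
  (Measurable.of_discrete (f := (finProdFinEquiv : Fin q × Fin q' → Fin (q * q')))).comp
    (hf.prodMk hg)

lemma isSetAlgebra_stepSets : IsSetAlgebra (stepSets Ω) where
  empty_mem := ⟨1, fun _ => 0, fun _ _ => False, measurable_const, by ext; simp⟩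
  compl_mem := by
    rintro s ⟨q, f, Q, hf, rfl⟩
    exact ⟨q, f, fun i j => ¬ Q i j, hf, by ext; simp⟩
  union_mem := by
    rintro s t ⟨q, f, Q, hf, rfl⟩ ⟨q', f', Q', hf', rfl⟩
    refine ⟨q * q', fun x => finProdFinEquiv (f x, f' x),
      fun i j => Q (finProdFinEquiv.symm i).1 (finProdFinEquiv.symm j).1 ∨
        Q' (finProdFinEquiv.symm i).2 (finProdFinEquiv.symm j).2, measurable_pair hf hf', ?_⟩
    ext p
    simp

lemma measurableSet_of_mem_stepSets {S : Set (Ω × Ω)} (h : S ∈ stepSets Ω) :
    MeasurableSet S := by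
  obtain ⟨q, f, Q, hf, rfl⟩ := h
  have h1 : Measurable fun p : Ω × Ω => (f p.1, f p.2) :=
    (hf.comp measurable_fst).prodMk (hf.comp measurable_snd)
  exact h1 (MeasurableSet.of_discrete (s := {p : Fin q × Fin q | Q p.1 p.2}))

lemma generateFrom_stepSets :
    (Prod.instMeasurableSpace : MeasurableSpace (Ω × Ω)) =
      MeasurableSpace.generateFrom (stepSets Ω) := by
  apply le_antisymm
  · rw [← generateFrom_prod]
    apply MeasurableSpace.generateFrom_mono
    rintro _ ⟨A, hA, B, hB, rfl⟩
    classical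
    refine ⟨2 * 2, fun x => finProdFinEquiv (if x ∈ A then 1 else 0, if x ∈ B then 1 else 0),
      fun i j => (finProdFinEquiv.symm i).1 = 1 ∧ (finProdFinEquiv.symm j).2 = 1,
      measurable_pair (Measurable.ite hA measurable_const measurable_const)
        (Measurable.ite hB measurable_const measurable_const), ?_⟩
    ext p
    simp
  · apply MeasurableSpace.generateFrom_le
    intro S hS
    exact measurableSet_of_mem_stepSets hS

lemma isStep_add {g g' : Ω × Ω → ℝ} (h : IsStep g) (h' : IsStep g') : IsStep (g + g') := by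
  obtain ⟨q, f, Q, hf, rfl⟩ := h
  obtain ⟨q', f', Q', hf', rfl⟩ := h'
  refine ⟨q * q', fun x => finProdFinEquiv (f x, f' x),
    fun i j => Q (finProdFinEquiv.symm i).1 (finProdFinEquiv.symm j).1 +
      Q' (finProdFinEquiv.symm i).2 (finProdFinEquiv.symm j).2, measurable_pair hf hf', ?_⟩
  ext p
  simp

lemma measurable_of_isStep {g : Ω × Ω → ℝ} (h : IsStep g) : Measurable g := by
  obtain ⟨q, f, Q, hf, rfl⟩ := h
  have h1 : Measurable fun p : Ω × Ω => (f p.1, f p.2) :=
    (hf.comp measurable_fst).prodMk (hf.comp measurable_snd)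
  exact (Measurable.of_discrete (f := fun p : Fin q × Fin q => Q p.1 p.2)).comp h1

/-- Every function with values in `[0, 1]` is close in `L¹` to a step function. -/
theorem exists_step (μ : Measure Ω) [IsProbabilityMeasure μ] {W : Ω × Ω → ℝ}
    (hW : Measurable W) (hW01 : ∀ p, W p ∈ Icc (0 : ℝ) 1) {ρ : ℝ} (hρ : 0 < ρ) :
    ∃ (q : ℕ) (f : Ω → Fin q) (Q : Fin q → Fin q → ℝ), Measurable f ∧
      (∀ i j, Q i j ∈ Icc (0 : ℝ) 1) ∧
      ∫ p, |W p - Q (f p.1) (f p.2)| ∂(μ.prod μ) ≤ ρ := by
  have hdense : (μ.prod μ).MeasureDense (stepSets Ω) :=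
    Measure.MeasureDense.of_generateFrom_isSetAlgebra_finite (μ.prod μ) isSetAlgebra_stepSets
      generateFrom_stepSets
  have hmem : MemLp W 1 (μ.prod μ) := by
    refine MemLp.of_bound hW.aestronglyMeasurable 1 (Filter.Eventually.of_forall fun p => ?_)
    rw [Real.norm_eq_abs, abs_of_nonneg (hW01 p).1]
    exact (hW01 p).2
  obtain ⟨g, hg, q, f, Q, hf, hgf⟩ := MemLp.induction_dense (p := 1) (by simp) IsStep (by
      intro c s hs _ ε hε
      -- approximate the indicator function
      obtain ⟨r, hr0, hr⟩ : ∃ r : ℝ, 0 < r ∧ ENNReal.ofReal r * ‖c‖ₑ ≤ ε := by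
        rcases eq_or_ne ε ∞ with rfl | hε'
        · exact ⟨1, one_pos, le_top⟩
        · have hεpos : 0 < ε.toReal := ENNReal.toReal_pos hε hε'
          refine ⟨ε.toReal / (‖c‖ + 1), by positivity, ?_⟩
          rw [← ofReal_norm, ← ENNReal.ofReal_mul (by positivity)]
          rw [← ENNReal.ofReal_toReal hε']
          apply ENNReal.ofReal_le_ofReal
          rw [ENNReal.ofReal_toReal hε', div_mul_eq_mul_div, div_le_iff₀ (by positivity)]
          have := norm_nonneg c
          nlinarith
      obtain ⟨S, ⟨q, f, Q, hf, rfl⟩, hS⟩ := hdense.approx s hs (measure_ne_top _ _) r hr0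
      classical
      have hSm : MeasurableSet {p : Ω × Ω | Q (f p.1) (f p.2)} :=
        measurableSet_of_mem_stepSets ⟨q, f, Q, hf, rfl⟩
      refine ⟨{p : Ω × Ω | Q (f p.1) (f p.2)}.indicator fun _ => c, ?_, q, f,
        fun i j => if Q i j then c else 0, hf, ?_⟩
      · rw [eLpNorm_one_eq_lintegral_enorm]
        calc ∫⁻ p, ‖(({p : Ω × Ω | Q (f p.1) (f p.2)}.indicator fun _ => c) -
                s.indicator fun _ => c) p‖ₑ ∂(μ.prod μ)
            ≤ ∫⁻ p, (s ∆ {p : Ω × Ω | Q (f p.1) (f p.2)}).indicator (fun _ => ‖c‖ₑ) p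
                ∂(μ.prod μ) := by
              apply lintegral_mono
              intro p
              by_cases h1 : p ∈ s <;> by_cases h2 : p ∈ {p : Ω × Ω | Q (f p.1) (f p.2)} <;>
                simp [Set.indicator, h1, h2, mem_symmDiff]
          _ = ‖c‖ₑ * (μ.prod μ) (s ∆ {p : Ω × Ω | Q (f p.1) (f p.2)}) := by
              rw [lintegral_indicator (hs.symmDiff hSm), setLIntegral_const]
          _ ≤ ‖c‖ₑ * ENNReal.ofReal r := by gcongr
          _ ≤ ε := by rw [mul_comm]; exact hr
      · ext p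
        simp [Set.indicator])
    (fun _ _ => isStep_add) (fun g hg => (measurable_of_isStep hg).aestronglyMeasurable) hmem
    (ε := ENNReal.ofReal ρ) (by simpa using hρ)
  -- clamp the values
  refine ⟨q, f, fun i j => max 0 (min 1 (Q i j)), hf, fun i j =>
    ⟨le_max_left _ _, max_le (by norm_num) (min_le_left _ _)⟩, ?_⟩
  have hgm : Measurable g := measurable_of_isStep ⟨q, f, Q, hf, hgf⟩
  have hclamp : ∀ p : Ω × Ω, |W p - max 0 (min 1 (Q (f p.1) (f p.2)))| ≤ |W p - g p| := by
    intro p
    rw [hgf]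
    simp only
    obtain ⟨h0, h1⟩ := hW01 p
    rcases le_total (Q (f p.1) (f p.2)) 0 with h | h
    · rw [min_eq_right (by linarith), max_eq_left h, abs_of_nonneg (by linarith),
        abs_of_nonneg (by linarith)]
      linarith
    · rcases le_total (Q (f p.1) (f p.2)) 1 with h' | h'
      · rw [min_eq_right h', max_eq_right h]
      · rw [min_eq_left h', max_eq_right (by norm_num), abs_of_nonpos (by linarith),
          abs_of_nonpos (by linarith)]
        linarith
  have hint : Integrable (fun p => |W p - g p|) (μ.prod μ) := by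
    have h1 : eLpNorm (W - g) 1 (μ.prod μ) < ∞ := lt_of_le_of_lt hg ENNReal.ofReal_lt_top
    have h2 : MemLp (W - g) 1 (μ.prod μ) := ⟨(hW.sub hgm).aestronglyMeasurable, h1⟩
    exact (memLp_one_iff_integrable.mp h2).abs
  calc ∫ p, |W p - max 0 (min 1 (Q (f p.1) (f p.2)))| ∂(μ.prod μ)
      ≤ ∫ p, |W p - g p| ∂(μ.prod μ) := by
        apply integral_mono_of_nonneg (Filter.Eventually.of_forall fun p => abs_nonneg _) hint
        exact Filter.Eventually.of_forall hclamp
    _ = (eLpNorm (W - g) 1 (μ.prod μ)).toReal := by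
        rw [eLpNorm_one_eq_lintegral_enorm, integral_eq_lintegral_of_nonneg_ae
          (Filter.Eventually.of_forall fun p => abs_nonneg _) hint.1]
        congr 1
        apply lintegral_congr
        intro p
        rw [← ofReal_norm, Pi.sub_apply, Real.norm_eq_abs]
    _ ≤ ρ := by
        apply ENNReal.toReal_le_of_le_ofReal hρ.le hg

end

end Pool.Agent.H86.Graphon
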