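import Mathlib
import Pool.Agent.H86.Graphon.Main
import Pool.Agent.H86.Graphon.Step

/-!
# Random colourings from graphons
-/

set_option autoImplicit false

open MeasureTheory Filter Topology

namespace Pool.Agent.H86.Graphon

/-- The colouring `c` of the pairs of vertices has a homogeneous set of size at least `r`. -/
def HasHomogeneousSet {V : Type*} (c : Sym2 V → Bool) (r : ℝ) : Prop :=
  ∃ T : Finset V, r ≤ T.card ∧ ∃ b : Bool, ∀ u ∈ T, ∀ v ∈ T, u ≠ v → c s(u, v) = b

/-- The edge probabilities `W (x u) (x v)`. -/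
def edgeProb {Ω V : Type*} (W : Ω → Ω → ℝ) (hW : ∀ x y, W x y = W y x) (x : V → Ω) :
    Sym2 V → ℝ :=
  Sym2.lift ⟨fun u v => W (x u) (x v), fun u v => hW (x u) (x v)⟩

/-- The probability of the event `A` for the random colouring `G(n, W)` of the pairs of `n`
vertices: the types `x u` of the vertices are independent with distribution `μ`, and, given the
types, the pairs are coloured independently, `u v` being `true` with probability
`W (x u) (x v)`. -/
noncomputable def graphonProb {Ω : Type*} [MeasurableSpace Ω] (μ : Measure Ω) (W : Ω → Ω → ℝ)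
    (hW : ∀ x y, W x y = W y x) (n : ℕ) (A : Set (Sym2 (Fin n) → Bool)) : ℝ :=
  ∫ x : Fin n → Ω, prob (edgeProb W hW x) A ∂(Measure.pi fun _ => μ)

/-- Theorem A in terms of `HasHomogeneousSet`. -/
theorem low_complexity' {ε : ℝ} (hε0 : 0 < ε) :
    ∃ η : ℝ, 0 < η ∧ ∀ᶠ n : ℕ in atTop, ∀ P : Sym2 (Fin n) → ℝ,
      (∀ e, P e ∈ Set.Icc (0 : ℝ) 1) → ∀ q : ℕ, (q : ℝ) ≤ (n : ℝ) ^ η →
      ∀ (f : Fin n → Fin q) (Q : Fin q → Fin q → ℝ),
        ∑ u, ∑ v, |P s(u, v) - Q (f u) (f v)| ≤ η * (n : ℝ) ^ 2 →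
        1 - (n : ℝ) ^ (-η) ≤ prob P {c | HasHomogeneousSet c ((2 - ε) * Real.logb 2 n)} := by
  obtain ⟨η, hη, h⟩ := low_complexity (lt_min hε0 one_pos) (min_le_right ε 1)
  refine ⟨η, hη, ?_⟩
  filter_upwards [h, eventually_ge_atTop 1] with n hn hn1
  intro P hP q hq f Q hsum
  have h1 := hn P hP q hq f Q hsum
  have h2 := prob_compl P {c | HasHomogeneousSet c ((2 - ε) * Real.logb 2 n)}
  have h3 : prob P {c | HasHomogeneousSet c ((2 - ε) * Real.logb 2 n)}ᶜ ≤
      prob P {c | ¬ HasHomog c ⌈(2 - min ε 1) * Real.logb 2 n⌉₊} := by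
    apply prob_mono hP
    intro c hc hcon
    apply hc
    obtain ⟨T, hT, b, hb⟩ := hcon
    refine ⟨T, ?_, b, hb⟩
    rw [hT]
    refine le_trans ?_ (Nat.le_ceil _)
    have hL : 0 ≤ Real.logb 2 n := Real.logb_nonneg (by norm_num) (by exact_mod_cast hn1)
    have : min ε 1 ≤ ε := min_le_left _ _
    nlinarith
  linarith

section

variable {Ω : Type*} [MeasurableSpace Ω]

lemma measurable_edgeProb {V : Type*} {W : Ω → Ω → ℝ} {hW : ∀ x y, W x y = W y x}
    (hWm : Measurable (Function.uncurry W)) (e : Sym2 V) :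
    Measurable fun x : V → Ω => edgeProb W hW x e := by
  induction e with
  | _ u v =>
    have h1 : Measurable fun x : V → Ω => (x u, x v) :=
      (measurable_pi_apply u).prodMk (measurable_pi_apply v)
    exact hWm.comp h1

lemma measurable_prob {n : ℕ} {W : Ω → Ω → ℝ} {hW : ∀ x y, W x y = W y x}
    (hWm : Measurable (Function.uncurry W)) (A : Set (Sym2 (Fin n) → Bool)) :
    Measurable fun x : Fin n → Ω => prob (edgeProb W hW x) A := by
  classical
  unfold prob
  refine Finset.measurable_sum _ fun c _ => ?_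
  by_cases hc : c ∈ A
  · simp only [if_pos hc]
    refine Finset.measurable_prod _ fun e _ => ?_
    unfold coin
    rcases c e with _ | _
    · simp only [Bool.false_eq_true, if_false]
      exact measurable_const.sub (measurable_edgeProb hWm e)
    · simp only [if_true]
      exact measurable_edgeProb hWm e
  · simp only [if_neg hc]
    exact measurable_const

omit [MeasurableSpace Ω] in
lemma edgeProb_mem {V : Type*} {W : Ω → Ω → ℝ} {hW : ∀ x y, W x y = W y x}
    (hW01 : ∀ x y, W x y ∈ Set.Icc (0 : ℝ) 1) (x : V → Ω) (e : Sym2 V) :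
    edgeProb W hW x e ∈ Set.Icc (0 : ℝ) 1 := by
  induction e with
  | _ u v => exact hW01 _ _

lemma integrable_prob (μ : Measure Ω) [IsProbabilityMeasure μ] {n : ℕ} {W : Ω → Ω → ℝ}
    {hW : ∀ x y, W x y = W y x} (hWm : Measurable (Function.uncurry W))
    (hW01 : ∀ x y, W x y ∈ Set.Icc (0 : ℝ) 1) (A : Set (Sym2 (Fin n) → Bool)) :
    Integrable (fun x : Fin n → Ω => prob (edgeProb W hW x) A) (Measure.pi fun _ => μ) := by
  refine Integrable.of_bound (measurable_prob hWm A).aestronglyMeasurable 1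
    (Eventually.of_forall fun x => ?_)
  rw [Real.norm_eq_abs, abs_of_nonneg (prob_nonneg (edgeProb_mem hW01 x) A)]
  exact prob_le_one (edgeProb_mem hW01 x) A

lemma graphonProb_compl (μ : Measure Ω) [IsProbabilityMeasure μ] {n : ℕ} {W : Ω → Ω → ℝ}
    {hW : ∀ x y, W x y = W y x} (hWm : Measurable (Function.uncurry W))
    (hW01 : ∀ x y, W x y ∈ Set.Icc (0 : ℝ) 1) (A : Set (Sym2 (Fin n) → Bool)) :
    graphonProb μ W hW n A + graphonProb μ W hW n Aᶜ = 1 := by
  unfold graphonProb
  rw [← integral_add (integrable_prob μ hWm hW01 A) (integrable_prob μ hWm hW01 Aᶜ)]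
  simp_rw [prob_compl]
  simp

lemma graphonProb_nonneg (μ : Measure Ω) {n : ℕ} {W : Ω → Ω → ℝ}
    {hW : ∀ x y, W x y = W y x}
    (hW01 : ∀ x y, W x y ∈ Set.Icc (0 : ℝ) 1) (A : Set (Sym2 (Fin n) → Bool)) :
    0 ≤ graphonProb μ W hW n A :=
  integral_nonneg fun x => prob_nonneg (edgeProb_mem hW01 x) A

/-- The joint distribution of two coordinates. -/
lemma integral_two_coords (μ : Measure Ω) [IsProbabilityMeasure μ] {n : ℕ} {u v : Fin n}
    (huv : u ≠ v) {g : Ω × Ω → ℝ} (hg : Measurable g) :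
    ∫ x : Fin n → Ω, g (x u, x v) ∂(Measure.pi fun _ => μ) = ∫ p, g p ∂(μ.prod μ) := by
  have hind := ProbabilityTheory.iIndepFun_pi (ι := Fin n) (μ := fun _ => μ)
    (X := fun _ => (id : Ω → Ω)) (fun _ => aemeasurable_id)
  have h1 := (hind.indepFun huv).map_prod_eq_prod_map_map
    (measurable_pi_apply u).aemeasurable (measurable_pi_apply v).aemeasurable
  have h2 : ∀ w : Fin n, Measure.map (fun x : Fin n → Ω => x w) (Measure.pi fun _ => μ) = μ :=
    fun w => (measurePreserving_eval (fun _ : Fin n => μ) w).map_eq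
  rw [h2 u, h2 v] at h1
  rw [← h1, integral_map]
  · exact ((measurable_pi_apply u).prodMk (measurable_pi_apply v)).aemeasurable
  · exact hg.aestronglyMeasurable

/-- **Theorem B.** -/
theorem graphon_homogeneous (μ : Measure Ω) [IsProbabilityMeasure μ] (W : Ω → Ω → ℝ)
    (hW : ∀ x y, W x y = W y x) (hWm : Measurable (Function.uncurry W))
    (hW01 : ∀ x y, W x y ∈ Set.Icc (0 : ℝ) 1) {ε : ℝ} (hε : 0 < ε) :
    Tendsto (fun n : ℕ => graphonProb μ W hW n
      {c | HasHomogeneousSet c ((2 - ε) * Real.logb 2 n)}) atTop (𝓝 1) := by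
  obtain ⟨η, hη, hA⟩ := low_complexity' hε
  rw [tendsto_order]
  have hle : ∀ n : ℕ, graphonProb μ W hW n
      {c | HasHomogeneousSet c ((2 - ε) * Real.logb 2 n)} ≤ 1 := by
    intro n
    have h1 := graphonProb_compl μ (hW := hW) hWm hW01
      {c : Sym2 (Fin n) → Bool | HasHomogeneousSet c ((2 - ε) * Real.logb 2 n)}
    have h2 := graphonProb_nonneg μ (hW := hW) hW01
      {c : Sym2 (Fin n) → Bool | HasHomogeneousSet c ((2 - ε) * Real.logb 2 n)}ᶜ
    linarith
  refine ⟨fun a ha => ?_, fun a ha => Eventually.of_forall fun n => (hle n).trans_lt ha⟩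
  -- a step function close to `W`
  set ζ : ℝ := 1 - a with hζ
  have hζ0 : 0 < ζ := by linarith
  obtain ⟨q, f, Q, hf, hQ01, hQ⟩ := exists_step μ hWm (fun p => hW01 p.1 p.2)
    (by positivity : 0 < η * ζ / 8)
  set g : Ω × Ω → ℝ := fun p => |Function.uncurry W p - Q (f p.1) (f p.2)| with hg
  have hgm : Measurable g := by
    have h1 : Measurable fun p : Ω × Ω => Q (f p.1) (f p.2) :=
      measurable_of_isStep ⟨q, f, Q, hf, rfl⟩
    exact (hWm.sub h1).abs
  have hg0 : ∀ p, 0 ≤ g p := fun p => abs_nonneg _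
  have hg1 : ∀ p, g p ≤ 1 := by
    intro p
    rw [hg]
    simp only
    have h1 := hW01 p.1 p.2
    have h2 := hQ01 (f p.1) (f p.2)
    rw [abs_le]
    exact ⟨by simp only [Function.uncurry]; linarith [h1.1, h2.2],
      by simp only [Function.uncurry]; linarith [h1.2, h2.1]⟩
  filter_upwards [hA, eventually_ge_atTop 1, eventually_le_rpow q hη,
    eventually_le_rpow (4 / ζ) hη,
    (tendsto_natCast_atTop_atTop (R := ℝ)).eventually_ge_atTop (2 / η)] with n hn hn1 hnq hnζ hnη
  have hn0 : (0 : ℝ) < n := by exact_mod_cast (by omega : 0 < n)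
  have hnn : (n : ℝ) ≤ η / 2 * (n : ℝ) ^ 2 := by
    have : 1 ≤ η / 2 * n := by
      calc (1 : ℝ) = η / 2 * (2 / η) := by field_simp
        _ ≤ η / 2 * n := by gcongr
    nlinarith
  -- pointwise bound
  set B : Set (Sym2 (Fin n) → Bool) := {c | HasHomogeneousSet c ((2 - ε) * Real.logb 2 n)} with hB
  have hpt : ∀ x : Fin n → Ω, prob (edgeProb W hW x) Bᶜ ≤ (n : ℝ) ^ (-η) +
      2 / (η * (n : ℝ) ^ 2) * ∑ u : Fin n, ∑ v : Fin n, (if u = v then 0 else g (x u, x v)) := by
    intro x
    have hs0 : 0 ≤ ∑ u : Fin n, ∑ v : Fin n, (if u = v then 0 else g (x u, x v)) := by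
      refine Finset.sum_nonneg fun u _ => Finset.sum_nonneg fun v _ => ?_
      split_ifs
      · exact le_rfl
      · exact hg0 _
    have hpow : 0 ≤ (n : ℝ) ^ (-η) := by positivity
    by_cases hcase : ∑ u : Fin n, ∑ v : Fin n,
        |edgeProb W hW x s(u, v) - Q (f (x u)) (f (x v))| ≤ η * (n : ℝ) ^ 2
    · have h1 := hn (edgeProb W hW x) (edgeProb_mem hW01 x) q hnq (fun u => f (x u)) Q hcase
      have h2 := prob_compl (edgeProb W hW x) B
      have h3 : 0 ≤ 2 / (η * (n : ℝ) ^ 2) *
          ∑ u : Fin n, ∑ v : Fin n, (if u = v then 0 else g (x u, x v)) :=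
        mul_nonneg (by positivity) hs0
      linarith
    · push Not at hcase
      have h1 : ∑ u : Fin n, ∑ v : Fin n,
          |edgeProb W hW x s(u, v) - Q (f (x u)) (f (x v))| ≤
          n + ∑ u : Fin n, ∑ v : Fin n, (if u = v then 0 else g (x u, x v)) := by
        have h2 : (n : ℝ) = ∑ u : Fin n, ∑ v : Fin n, (if u = v then (1 : ℝ) else 0) := by
          simp
        conv_rhs => rw [h2]
        rw [← Finset.sum_add_distrib]
        refine Finset.sum_le_sum fun u _ => ?_
        rw [← Finset.sum_add_distrib]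
        refine Finset.sum_le_sum fun v _ => ?_
        by_cases huv : u = v
        · simp only [if_pos huv, add_zero]
          exact hg1 (x u, x v)
        · simp only [if_neg huv, zero_add]
          exact le_rfl
      have h2 := prob_le_one (edgeProb_mem (hW := hW) hW01 x) Bᶜ
      have h3 : 1 ≤ 2 / (η * (n : ℝ) ^ 2) *
          ∑ u : Fin n, ∑ v : Fin n, (if u = v then 0 else g (x u, x v)) := by
        rw [div_mul_eq_mul_div, le_div_iff₀ (by positivity)]
        linarith
      linarith
  -- integrate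
  have hintg : ∀ u v : Fin n, Integrable (fun x : Fin n → Ω =>
      (if u = v then 0 else g (x u, x v))) (Measure.pi fun _ => μ) := by
    intro u v
    by_cases huv : u = v
    · simp only [if_pos huv]
      exact integrable_zero _ _ _
    · simp only [if_neg huv]
      refine Integrable.of_bound
        (hgm.comp ((measurable_pi_apply u).prodMk (measurable_pi_apply v))).aestronglyMeasurable 1
        (Eventually.of_forall fun x => ?_)
      rw [Real.norm_eq_abs, abs_of_nonneg (hg0 _)]
      exact hg1 _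
  have hintsum : Integrable (fun x : Fin n → Ω => ∑ u : Fin n, ∑ v : Fin n,
      (if u = v then 0 else g (x u, x v))) (Measure.pi fun _ => μ) :=
    integrable_finsetSum _ fun u _ => integrable_finsetSum _ fun v _ => hintg u v
  have hval : ∫ x : Fin n → Ω, ∑ u : Fin n, ∑ v : Fin n, (if u = v then 0 else g (x u, x v))
      ∂(Measure.pi fun _ => μ) ≤ (n : ℝ) ^ 2 * (η * ζ / 8) := by
    rw [integral_finsetSum _ fun u _ => integrable_finsetSum _ fun v _ => hintg u v]
    calc _ ≤ ∑ u : Fin n, ∑ v : Fin n, (η * ζ / 8) := by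
          refine Finset.sum_le_sum fun u _ => ?_
          rw [integral_finsetSum _ fun v _ => hintg u v]
          refine Finset.sum_le_sum fun v _ => ?_
          by_cases huv : u = v
          · simp only [if_pos huv, integral_zero]
            positivity
          · simp only [if_neg huv]
            rw [integral_two_coords μ huv hgm]
            exact hQ
      _ = (n : ℝ) ^ 2 * (η * ζ / 8) := by
          simp only [Finset.sum_const, Finset.card_univ, Fintype.card_fin, nsmul_eq_mul]
          ring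
  have hbound : graphonProb μ W hW n Bᶜ ≤ (n : ℝ) ^ (-η) +
      2 / (η * (n : ℝ) ^ 2) * ((n : ℝ) ^ 2 * (η * ζ / 8)) := by
    unfold graphonProb
    calc ∫ x : Fin n → Ω, prob (edgeProb W hW x) Bᶜ ∂(Measure.pi fun _ => μ)
        ≤ ∫ x : Fin n → Ω, ((n : ℝ) ^ (-η) + 2 / (η * (n : ℝ) ^ 2) *
            ∑ u : Fin n, ∑ v : Fin n, (if u = v then 0 else g (x u, x v)))
            ∂(Measure.pi fun _ => μ) :=
          integral_mono (integrable_prob μ hWm hW01 Bᶜ)
            ((integrable_const _).add (hintsum.const_mul _)) hpt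
      _ = (n : ℝ) ^ (-η) + 2 / (η * (n : ℝ) ^ 2) *
            ∫ x : Fin n → Ω, ∑ u : Fin n, ∑ v : Fin n, (if u = v then 0 else g (x u, x v))
              ∂(Measure.pi fun _ => μ) := by
          rw [integral_add (integrable_const _) (hintsum.const_mul _), integral_const_mul]
          simp
      _ ≤ _ := by gcongr
  have hsimp : 2 / (η * (n : ℝ) ^ 2) * ((n : ℝ) ^ 2 * (η * ζ / 8)) = ζ / 4 := by
    field_simp
    ring
  have hpow : (n : ℝ) ^ (-η) ≤ ζ / 4 := by
    rw [Real.rpow_neg hn0.le, inv_le_comm₀ (by positivity) (by positivity)]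
    calc (ζ / 4)⁻¹ = 4 / ζ := by rw [inv_div]
      _ ≤ _ := hnζ
  have h1 := graphonProb_compl μ (hW := hW) hWm hW01 B
  rw [hsimp] at hbound
  linarith

end

end Pool.Agent.H86.Graphon
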