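import Mathlib
import Pool.Agent.H86.Graphon.Random

/-!
# Erdős' bound for the uniform random colouring
-/

set_option autoImplicit false

open MeasureTheory Filter Topology Finset

namespace Pool.Agent.H86.Graphon

section

variable {E : Type*} [Fintype E] [DecidableEq E]

lemma prob_biUnion_le {P : E → ℝ} (hP : ∀ e, P e ∈ Set.Icc (0 : ℝ) 1) {ι : Type*}
    (s : Finset ι) (A : ι → Set (E → Bool)) (B : Set (E → Bool)) (h : ∀ c ∈ B, ∃ i ∈ s, c ∈ A i) :
    prob P B ≤ ∑ i ∈ s, prob P (A i) := by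
  classical
  unfold prob
  rw [sum_comm]
  refine sum_le_sum fun c _ => ?_
  have h0 : 0 ≤ ∏ e, coin (P e) (c e) := prod_coin_nonneg hP c
  split_ifs with hc
  · obtain ⟨i, hi, hci⟩ := h c hc
    calc _ = if c ∈ A i then ∏ e, coin (P e) (c e) else 0 := by rw [if_pos hci]
      _ ≤ _ := single_le_sum (f := fun i => if c ∈ A i then ∏ e, coin (P e) (c e) else 0)
        (fun i _ => by
          split_ifs
          · exact h0
          · exact le_rfl) hi
  · refine sum_nonneg fun i _ => ?_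
    split_ifs
    · exact h0
    · exact le_rfl

/-- The probability that the edges in `C` have colour `b`. -/
lemma prob_mono_set (P : E → ℝ) (C : Finset E) (b : Bool) :
    prob P {c | ∀ e ∈ C, c e = b} = ∏ e ∈ C, coin (P e) b := by
  classical
  have h := sum_prod_coin P (fun e x => if e ∈ C then (if x = b then 1 else 0) else 1)
  have h1 : ∏ e, (P e * (if e ∈ C then (if true = b then (1 : ℝ) else 0) else 1) +
      (1 - P e) * (if e ∈ C then (if false = b then (1 : ℝ) else 0) else 1)) =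
      ∏ e ∈ C, coin (P e) b := by
    rw [← prod_ite_mem_eq (s := C) (f := fun e => coin (P e) b)]
    refine prod_congr rfl fun e _ => ?_
    by_cases he : e ∈ C
    · rcases b with _ | _ <;> simp [he, coin]
    · simp [he]
  rw [← h1, ← h]
  unfold prob
  refine sum_congr rfl fun c _ => ?_
  by_cases hc : c ∈ {c : E → Bool | ∀ e ∈ C, c e = b}
  · rw [if_pos hc, prod_eq_one (s := univ)
      (f := fun e => if e ∈ C then (if c e = b then (1 : ℝ) else 0) else 1), mul_one]
    intro e _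
    by_cases he : e ∈ C
    · rw [if_pos he, if_pos (hc e he)]
    · rw [if_neg he]
  · rw [if_neg hc]
    have hc' : ∃ e ∈ C, c e ≠ b := by
      by_contra hcon
      push Not at hcon
      exact hc hcon
    obtain ⟨e, he, hce⟩ := hc'
    have h2 : ∏ e, (if e ∈ C then (if c e = b then (1 : ℝ) else 0) else 1) = 0 := by
      apply prod_eq_zero (mem_univ e)
      rw [if_pos he, if_neg hce]
    rw [h2, mul_zero]

end

/-- Union bound for homogeneous sets. -/
lemma prob_half_le (n k : ℕ) :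
    prob (fun _ : Sym2 (Fin n) => (1 / 2 : ℝ)) {c | HasHomog c k} ≤
      2 * (n : ℝ) ^ k * (1 / 2) ^ (k.choose 2) := by
  classical
  have hP : ∀ e : Sym2 (Fin n), (1 / 2 : ℝ) ∈ Set.Icc (0 : ℝ) 1 := fun _ => ⟨by norm_num, by norm_num⟩
  calc prob (fun _ : Sym2 (Fin n) => (1 / 2 : ℝ)) {c | HasHomog c k}
      ≤ ∑ i ∈ (univ : Finset (Fin n)).powersetCard k ×ˢ (univ : Finset Bool),
          prob (fun _ : Sym2 (Fin n) => (1 / 2 : ℝ)) {c | ∀ e ∈ edges i.1, c e = i.2} := by
        apply prob_biUnion_le hP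
        rintro c ⟨T, hT, b, hb⟩
        refine ⟨(T, b), mem_product.mpr ⟨mem_powersetCard.mpr ⟨subset_univ _, hT⟩, mem_univ _⟩, ?_⟩
        intro e
        induction e with
        | _ u v =>
          intro he
          obtain ⟨hu, hv, huv⟩ := mem_edges.mp he
          exact hb u hu v hv huv
    _ = ∑ i ∈ (univ : Finset (Fin n)).powersetCard k ×ˢ (univ : Finset Bool),
          (1 / 2 : ℝ) ^ (k.choose 2) := by
        refine sum_congr rfl fun i hi => ?_
        rw [prob_mono_set, ← (mem_powersetCard.mp (mem_product.mp hi).1).2, ← card_edges]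
        rw [← prod_const]
        refine prod_congr rfl fun e _ => ?_
        rcases i.2 with _ | _ <;> norm_num [coin]
    _ = 2 * ((n.choose k : ℕ) : ℝ) * (1 / 2) ^ (k.choose 2) := by
        rw [sum_const, card_product, card_powersetCard, card_univ, card_univ, Fintype.card_fin,
          Fintype.card_bool, nsmul_eq_mul]
        push_cast
        ring
    _ ≤ 2 * (n : ℝ) ^ k * (1 / 2) ^ (k.choose 2) := by
        have : ((n.choose k : ℕ) : ℝ) ≤ (n : ℝ) ^ k := by
          exact_mod_cast Nat.choose_le_pow n k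
        gcongr

/-- **Erdős.** -/
theorem erdos_half {Ω : Type*} [MeasurableSpace Ω] (μ : Measure Ω) [IsProbabilityMeasure μ]
    {ε : ℝ} (hε : 0 < ε) :
    Tendsto (fun n : ℕ => graphonProb μ (fun _ _ => (1 / 2 : ℝ)) (fun _ _ => rfl) n
      {c | HasHomogeneousSet c ((2 + ε) * Real.logb 2 n)}) atTop (𝓝 0) := by
  have hval : ∀ (n : ℕ) (A : Set (Sym2 (Fin n) → Bool)),
      graphonProb μ (fun _ _ => (1 / 2 : ℝ)) (fun _ _ => rfl) n A =
        prob (fun _ : Sym2 (Fin n) => (1 / 2 : ℝ)) A := by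
    intro n A
    unfold graphonProb
    have h1 : ∀ x : Fin n → Ω, edgeProb (fun _ _ => (1 / 2 : ℝ)) (fun _ _ => rfl) x =
        fun _ : Sym2 (Fin n) => (1 / 2 : ℝ) := by
      intro x
      funext e
      induction e with
      | _ u v => rfl
    simp_rw [h1]
    simp
  have hP : ∀ (n : ℕ) (e : Sym2 (Fin n)), (1 / 2 : ℝ) ∈ Set.Icc (0 : ℝ) 1 :=
    fun _ _ => ⟨by norm_num, by norm_num⟩
  simp_rw [hval]
  -- the upper bound
  have hub : ∀ᶠ n : ℕ in atTop, prob (fun _ : Sym2 (Fin n) => (1 / 2 : ℝ))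
      {c | HasHomogeneousSet c ((2 + ε) * Real.logb 2 n)} ≤ 2 * ((n : ℝ) ^ (-(1 : ℝ))) := by
    filter_upwards [eventually_ge_atTop 1, tendsto_logb.eventually_ge_atTop (4 / ε),
      tendsto_logb.eventually_ge_atTop 1] with n hn1 hL hL1
    have hn0 : (0 : ℝ) < n := by exact_mod_cast (by omega : 0 < n)
    obtain ⟨L, hLdef⟩ : ∃ L : ℝ, L = Real.logb 2 n := ⟨_, rfl⟩
    rw [← hLdef] at hL hL1 ⊢
    obtain ⟨k, hk⟩ : ∃ k : ℕ, k = ⌈(2 + ε) * L⌉₊ := ⟨_, rfl⟩
    have hk1 : (2 + ε) * L ≤ k := by rw [hk]; exact Nat.le_ceil _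
    have hεL : 4 ≤ ε * L := by
      calc (4 : ℝ) = ε * (4 / ε) := by field_simp
        _ ≤ ε * L := by gcongr
    have h1 : prob (fun _ : Sym2 (Fin n) => (1 / 2 : ℝ)) {c | HasHomogeneousSet c ((2 + ε) * L)} ≤
        prob (fun _ : Sym2 (Fin n) => (1 / 2 : ℝ)) {c | HasHomog c k} := by
      apply prob_mono (hP n)
      rintro c ⟨T, hT, b, hb⟩
      have hkT : k ≤ T.card := by
        rw [hk]
        exact Nat.ceil_le.mpr hT
      obtain ⟨T', hT', hT'k⟩ := exists_subset_card_eq hkT
      exact ⟨T', hT'k, b, fun u hu v hv => hb u (hT' hu) v (hT' hv)⟩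
    refine (h1.trans (prob_half_le n k)).trans ?_
    have hnpow : (n : ℝ) ^ k = 2 ^ (k * L) := by
      rw [mul_comm, Real.rpow_mul (by norm_num), hLdef, Real.rpow_logb (by norm_num)
        (by norm_num) hn0, Real.rpow_natCast]
    have hhalf : (1 / 2 : ℝ) ^ (k.choose 2) = 2 ^ (-((k : ℝ) * (k - 1) / 2)) := by
      rw [one_div, inv_pow, ← Real.rpow_natCast, ← Real.rpow_neg (by norm_num), Nat.cast_choose_two]
    have hninv : (n : ℝ) ^ (-(1 : ℝ)) = 2 ^ (-L) := by
      rw [hLdef, Real.rpow_neg (by norm_num : (0 : ℝ) ≤ 2),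
        Real.rpow_logb (by norm_num) (by norm_num) hn0, Real.rpow_neg hn0.le, Real.rpow_one]
    rw [hnpow, hhalf, hninv, mul_assoc, ← Real.rpow_add (by norm_num)]
    apply mul_le_mul_of_nonneg_left _ (by norm_num)
    apply Real.rpow_le_rpow_of_exponent_le (by norm_num)
    nlinarith
  have hlim : Tendsto (fun n : ℕ => 2 * ((n : ℝ) ^ (-(1 : ℝ)))) atTop (𝓝 0) := by
    have h1 := (tendsto_rpow_neg_atTop (y := 1) one_pos).comp (tendsto_natCast_atTop_atTop (R := ℝ))
    have h2 := h1.const_mul (2 : ℝ)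
    simpa using h2
  refine tendsto_of_tendsto_of_tendsto_of_le_of_le' tendsto_const_nhds hlim
    (Eventually.of_forall fun n => prob_nonneg (hP n) _) hub

end Pool.Agent.H86.Graphon
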